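import Mathlib
import Pool.Agent.KK.StmtsB2

namespace Pool.Agent.KK.B.H52

open Function
open scoped Classical

section
variable {V : Type} [Fintype V] [DecidableEq V] {d : ℕ}

theorem symm_augE (H : Finset (Finset V)) : Symm (augE (d := d) H) := by
  intro σ a
  unfold augE
  have h1 : Injective (a ∘ σ) ↔ Injective a := Equiv.injective_comp σ a
  have h2 : Finset.univ.image (a ∘ σ) = Finset.univ.image a := by
    ext v
    simp only [Finset.mem_image, Finset.mem_univ, true_and, comp_apply]
    constructor
    · rintro ⟨x, hx⟩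
      exact ⟨σ x, hx⟩
    · rintro ⟨x, hx⟩
      exact ⟨σ.symm x, by rw [Equiv.apply_symm_apply]; exact hx⟩
  rw [h1, h2]

theorem image_update (a : Fin (d + 2) → V) (i : Fin (d + 2)) (v : V) :
    Finset.univ.image (update a i v) = insert v ((Finset.univ.erase i).image a) := by
  ext w
  simp only [Finset.mem_image, Finset.mem_univ, true_and, Finset.mem_insert, Finset.mem_erase,
    and_true]
  constructor
  · rintro ⟨x, hx⟩
    by_cases h : x = i
    · subst h
      rw [update_self] at hx
      exact Or.inl hx.symm
    · rw [update_of_ne h] at hx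
      exact Or.inr ⟨x, h, hx⟩
  · rintro (h | ⟨x, hxi, hx⟩)
    · exact ⟨i, by rw [update_self]; exact h.symm⟩
    · exact ⟨x, by rw [update_of_ne hxi]; exact hx⟩

theorem deg_augE [Nonempty V] (H : Finset (Finset V)) (hD : Dirac H (d + 2)) :
    Deg (augE (d := d) H) := by
  intro a i
  have hn : (0 : ℝ) < Fintype.card V := by exact_mod_cast Fintype.card_pos
  by_cases hinj : ∀ l l' : Fin (d + 2), l ≠ i → l' ≠ i → a l = a l' → l = l'
  · have hS : ((Finset.univ.erase i).image a).card = d + 2 - 1 := by
      rw [Finset.card_image_of_injOn]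
      · rw [Finset.card_erase_of_mem (Finset.mem_univ _), Finset.card_univ, Fintype.card_fin]
      · intro l hl l' hl' hll
        rw [Finset.mem_coe, Finset.mem_erase] at hl hl'
        exact hinj l l' hl.1 hl'.1 hll
    have h1 := hD _ hS
    have h2 : KK.nb H ((Finset.univ.erase i).image a) ⊆
        Finset.univ.filter (fun v => augE H (update a i v)) := by
      intro v hv
      unfold KK.nb at hv
      rw [Finset.mem_filter] at hv
      rw [Finset.mem_filter]
      refine ⟨Finset.mem_univ _, fun _ => ?_⟩
      rw [image_update]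
      exact hv.2.2
    have h3 := Finset.card_le_card h2
    rw [dens_eq, div_le_div_iff₀ two_pos hn, one_mul]
    have h4 : Fintype.card V ≤ (Finset.univ.filter (fun v => augE H (update a i v))).card * 2 := by
      omega
    exact_mod_cast h4
  · push Not at hinj
    obtain ⟨l, l', hl, hl', hll, hne⟩ := hinj
    have h1 : ∀ v : V, augE H (update a i v) ↔ True := by
      intro v
      refine ⟨fun _ => trivial, fun _ hI => ?_⟩
      exfalso
      apply hne
      apply hI
      rw [update_of_ne hl, update_of_ne hl']
      exact hll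
    rw [dens_congr h1, dens_true]
    norm_num

theorem dens_eq_const [Nonempty V] (c : V) :
    dens (fun z : V => z = c) ≤ 1 / (Fintype.card V : ℝ) := by
  rw [dens_eq]
  have h : Finset.univ.filter (fun z : V => z = c) = {c} := by
    ext z
    simp
  rw [h, Finset.card_singleton]
  norm_num

theorem dens_coord [Nonempty V] (i j : Fin (d + 2)) (hij : i ≠ j) :
    dens (fun e : Fin (d + 2) → V => e i = e j) ≤ 1 / (Fintype.card V : ℝ) := by
  rw [← dens_update i (fun e : Fin (d + 2) → V => e i = e j)]
  have h1 : ∀ x : (Fin (d + 2) → V) × V, (update x.1 i x.2 i = update x.1 i x.2 j) ↔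
      (x.2 = x.1 j) := by
    intro x
    rw [update_self, update_of_ne hij.symm]
  rw [dens_congr h1]
  exact dens_prod_le (Q := fun (a : Fin (d + 2) → V) (z : V) => z = a j) (by positivity)
    (fun a => dens_eq_const (a j))

end

theorem aug : AugStmt := by
  intro d V _ _ _ H _hU hD
  refine ⟨symm_augE H, deg_augE H hD, ?_⟩
  intro P
  have h1 : dens (fun e : Fin (d + 2) → V => augE H e ∧ P e) ≤
      dens (fun e : Fin (d + 2) → V => (LE H e ∧ P e) ∨
        ∃ p : Fin (d + 2) × Fin (d + 2), p.1 ≠ p.2 ∧ e p.1 = e p.2) := by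
    refine dens_mono ?_
    rintro e ⟨h, hP⟩
    by_cases hI : Injective e
    · exact Or.inl ⟨h hI, hP⟩
    · right
      rw [Injective] at hI
      push Not at hI
      obtain ⟨x, y, hxy, hne⟩ := hI
      exact ⟨(x, y), hne, hxy⟩
  refine h1.trans ((dens_or_le _ _).trans ?_)
  have h2 : dens (fun e : Fin (d + 2) → V =>
      ∃ p : Fin (d + 2) × Fin (d + 2), p.1 ≠ p.2 ∧ e p.1 = e p.2) ≤
      ((d : ℝ) + 2) ^ 2 / (Fintype.card V : ℝ) := by
    refine (dens_exists_le _).trans ?_
    calc ∑ p : Fin (d + 2) × Fin (d + 2), dens (fun e : Fin (d + 2) → V => p.1 ≠ p.2 ∧ e p.1 = e p.2)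
        ≤ ∑ _p : Fin (d + 2) × Fin (d + 2), 1 / (Fintype.card V : ℝ) := by
          refine Finset.sum_le_sum fun p _ => ?_
          by_cases hp : p.1 = p.2
          · have : ∀ e : Fin (d + 2) → V, (p.1 ≠ p.2 ∧ e p.1 = e p.2) ↔ False := by
              intro e
              exact ⟨fun h => h.1 hp, fun h => h.elim⟩
            rw [dens_congr this, dens_false]
            positivity
          · exact (dens_mono fun e h => h.2).trans (dens_coord p.1 p.2 hp)
      _ = ((d : ℝ) + 2) ^ 2 / (Fintype.card V : ℝ) := by
          rw [Finset.sum_const, Finset.card_univ, Fintype.card_prod, Fintype.card_fin, nsmul_eq_mul]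
          push_cast
          ring
  linarith

end Pool.Agent.KK.B.H52
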