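import Mathlib
import Pool.Agent.KK.StmtsB2

namespace Pool.Agent.KK.B.H52

open Function
open scoped Classical

section
variable {d : ℕ}

theorem cyc_prop (P : Fin (d + 2) → Prop) (h : ∀ i, P i → P (i + 1)) :
    ∀ (n : ℕ) (i j : Fin (d + 2)), (j - i).val = n → P i → P j := by
  intro n
  induction n with
  | zero =>
    intro i j hij hP
    have h1 : j - i = 0 := Fin.ext hij
    rw [sub_eq_zero] at h1
    rw [h1]; exact hP
  | succ n ih =>
    intro i j hij hP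
    apply ih (i + 1) j _ (h i hP)
    have h1 : j - i ≠ 0 := by
      intro h0
      rw [h0] at hij
      simp at hij
    have h2 : j - (i + 1) = j - i - 1 := by abel
    rw [h2, Fin.val_sub_one_of_ne_zero h1, hij]
    rfl

theorem exists_step (P : Fin (d + 2) → Prop) (h : ¬ ∀ i j, P i ↔ P j) :
    ∃ i, P i ∧ ¬ P (i + 1) := by
  by_contra hc
  push Not at hc
  apply h
  intro i j
  exact ⟨cyc_prop P hc _ i j rfl, cyc_prop P hc _ j i rfl⟩

variable {V : Type} [Fintype V] [DecidableEq V]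

theorem stp_le_add (H : Finset (Finset V)) (U D : Set (Sta V d)) (hD : D ⊆ U) :
    stp H D Dᶜ ≤ stp H D (U \ D) + stp H U Uᶜ := by
  unfold stp
  have h1 : {p : Sta V d × Sta V d | p.1 ∈ D ∧ p.2 ∈ Dᶜ ∧ St H p.1 p.2} ⊆
      {p : Sta V d × Sta V d | p.1 ∈ D ∧ p.2 ∈ U \ D ∧ St H p.1 p.2} ∪
      {p : Sta V d × Sta V d | p.1 ∈ U ∧ p.2 ∈ Uᶜ ∧ St H p.1 p.2} := by
    rintro p ⟨h1, h2, h3⟩
    by_cases hU : p.2 ∈ U
    · exact Or.inl ⟨h1, ⟨hU, h2⟩, h3⟩
    · exact Or.inr ⟨hD h1, hU, h3⟩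
  have h2 := (Set.ncard_le_ncard h1 (Set.toFinite _)).trans (Set.ncard_union_le _ _)
  exact_mod_cast h2

end

theorem cnc (hcnv : CnvStmt) : CncStmt := by
  intro d V _ _ _ H U hU
  have hn : (0 : ℝ) ≤ (Fintype.card V : ℝ) ^ (d + 2) := by positivity
  have hC := (hcnv d V H hU).2
  intro D hD
  refine le_trans ?_ (stp_le_add H U D hD)
  rw [hC D Dᶜ]
  apply mul_le_mul_of_nonneg_right _ hn
  refine le_trans (dens_mono ?_) (dens_exists_le
    (fun (i : Fin (d + 2)) (e : Fin (d + 2) → V) => LE H e ∧ sys D i e ∧ sys Dᶜ (i + 1) e))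
  rintro e ⟨h1, h2⟩
  obtain ⟨i, hi, hi'⟩ := exists_step (fun i => sys D i e) h2
  exact ⟨i, h1, hi, hi'⟩

end Pool.Agent.KK.B.H52
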