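import Pool.Agent.Helper52_KK.Cnt

/-! Squad KK, row CNF (helper52). -/

set_option autoImplicit false

open scoped BigOperators

namespace Pool.Agent.KK.H52

theorem min_exists (g : ℕ → ℝ) (hg : ∀ m, 0 < g m) (M : ℕ) :
    ∃ x : ℝ, 0 < x ∧ ∀ m ≤ M, x ≤ g m := by
  induction M with
  | zero => exact ⟨g 0, hg 0, fun m hm => by rw [Nat.le_zero.mp hm]⟩
  | succ M ih =>
    obtain ⟨x, hx, h⟩ := ih
    refine ⟨min x (g (M + 1)), lt_min hx (hg _), fun m hm => ?_⟩
    rcases Nat.lt_or_ge m (M + 1) with h1 | h1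
    · exact le_trans (min_le_left _ _) (h m (by omega))
    · have : m = M + 1 := by omega
      rw [this]
      exact min_le_right _ _

theorem max_exists (g : ℕ → ℕ) (M : ℕ) : ∃ x : ℕ, ∀ m ≤ M, g m ≤ x := by
  induction M with
  | zero => exact ⟨g 0, fun m hm => by rw [Nat.le_zero.mp hm]⟩
  | succ M ih =>
    obtain ⟨x, h⟩ := ih
    refine ⟨max x (g (M + 1)), fun m hm => ?_⟩
    rcases Nat.lt_or_ge m (M + 1) with h1 | h1
    · exact le_trans (h m (by omega)) (le_max_left _ _)
    · have : m = M + 1 := by omega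
      rw [this]
      exact le_max_right _ _

theorem nodup_of_flatten {α : Type} {F : List (List α)} (h : F.flatten.Nodup)
    (h0 : ∀ w ∈ F, w ≠ []) : F.Nodup := by
  rw [List.nodup_flatten] at h
  have h2 := h.2
  refine List.Pairwise.imp_of_mem ?_ h2
  intro a b ha hb hab hne
  subst hne
  obtain ⟨x, hx⟩ := List.exists_mem_of_ne_nil a (h0 a ha)
  exact hab hx hx

theorem fin_set {α : Type} (F : List α) (P : α → Prop) : {w : α | w ∈ F ∧ P w}.Finite :=
  (List.finite_toSet F).subset fun _ hw => hw.1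

section
variable {V : Type} [Fintype V] [DecidableEq V]

theorem fam_step (H : Finset (Finset V)) (k m q : ℕ) (c δ : ℝ) (hk : 2 ≤ k) (hm : 0 < m)
    (hc : 0 < c) (T : Fin q → Set (List V)) (hT : ∀ i, Tup k (T i)) (Z : Finset V)
    (hZ : (m : ℝ) * Z.card ≤ c / 2 * Fintype.card V) (hq : q ≤ Fintype.card V)
    (hfam : ∀ 𝒟 : Finset (Finset (Fin m → V)), (𝒟.card : ℝ) ≤ (Fintype.card V : ℝ) ^ (2 * k - 1) →
      (∀ D ∈ 𝒟, c / 2 * (Fintype.card V : ℝ) ^ m ≤ D.card) →
      ∃ F : Finset (Fin m → V), (F.card : ℝ) ≤ δ * Fintype.card V ∧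
        (∀ u ∈ F, Function.Injective u) ∧
        (∀ u ∈ F, ∀ v ∈ F, u ≠ v → Disjoint (Set.range u) (Set.range v)) ∧
        ∀ D ∈ 𝒟, δ * (c / 2) / 8 * Fintype.card V ≤ (D ∩ F).card) :
    ∃ F : List (List V), F.flatten.Nodup ∧ (∀ w ∈ F, w.length = m) ∧
      (∀ v ∈ F.flatten, v ∉ Z) ∧ (F.length : ℝ) ≤ δ * Fintype.card V ∧
      ∀ i, ∀ a ∈ T i, ∀ b ∈ T i, c * (Fintype.card V : ℝ) ^ m ≤ con H k m a b →
        δ * (c / 2) / 8 * Fintype.card V ≤
          ({w : List V | w ∈ F ∧ Path H k (a ++ w ++ b)}.ncard : ℝ) := by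
  classical
  let X : Type := Fin q × (Fin (k - 1) → V) × (Fin (k - 1) → V)
  let D : X → Finset (Fin m → V) := fun x => Finset.univ.filter fun w =>
    Path H k (List.ofFn x.2.1 ++ List.ofFn w ++ List.ofFn x.2.2) ∧ ∀ j, w j ∉ Z
  let S : Finset X := Finset.univ.filter fun x =>
    c * (Fintype.card V : ℝ) ^ m ≤ con H k m (List.ofFn x.2.1) (List.ofFn x.2.2)
  have hcardX : Fintype.card X = q * (Fintype.card V ^ (k - 1) * Fintype.card V ^ (k - 1)) := by
    simp only [X, Fintype.card_prod, Fintype.card_fin, Fintype.card_fun]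
  have h1 : (((S.image D).card : ℕ) : ℝ) ≤ (Fintype.card V : ℝ) ^ (2 * k - 1) := by
    have : (S.image D).card ≤ Fintype.card V ^ (2 * k - 1) := by
      calc (S.image D).card ≤ S.card := Finset.card_image_le
        _ ≤ Fintype.card X := Finset.card_le_univ _
        _ = q * (Fintype.card V ^ (k - 1) * Fintype.card V ^ (k - 1)) := hcardX
        _ ≤ Fintype.card V * (Fintype.card V ^ (k - 1) * Fintype.card V ^ (k - 1)) :=
            Nat.mul_le_mul_right _ hq
        _ = Fintype.card V ^ (2 * k - 1) := by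
            rw [← pow_add, ← pow_succ']
            congr 1
            omega
    exact_mod_cast this
  have h2 : ∀ E ∈ S.image D, c / 2 * (Fintype.card V : ℝ) ^ m ≤ E.card := by
    intro E hE
    obtain ⟨x, hx, rfl⟩ := Finset.mem_image.mp hE
    have hx' := (Finset.mem_filter.mp hx).2
    have hsub : {w : Fin m → V | Path H k (List.ofFn x.2.1 ++ List.ofFn w ++ List.ofFn x.2.2)} ⊆
        (↑(D x) : Set (Fin m → V)) ∪ {w : Fin m → V | ∃ j, w j ∈ Z} := by
      intro w hw
      by_cases hz : ∃ j, w j ∈ Z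
      · exact Or.inr hz
      · push Not at hz
        refine Or.inl ?_
        rw [Finset.mem_coe, Finset.mem_filter]
        exact ⟨Finset.mem_univ _, hw, hz⟩
    have h3 := le_trans (Set.ncard_le_ncard hsub (Set.toFinite _)) (Set.ncard_union_le _ _)
    rw [Set.ncard_coe_finset] at h3
    have h4 := le_trans h3 (Nat.add_le_add_left (hit_count m Z) _)
    have h5 : (con H k m (List.ofFn x.2.1) (List.ofFn x.2.2) : ℝ) ≤
        (D x).card + m * Z.card * (Fintype.card V : ℝ) ^ (m - 1) := by
      have := (Nat.cast_le (α := ℝ)).mpr h4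
      push_cast at this
      exact this
    have h6 : (m : ℝ) * Z.card * (Fintype.card V : ℝ) ^ (m - 1) ≤
        c / 2 * (Fintype.card V : ℝ) ^ m := by
      have e1 : (Fintype.card V : ℝ) ^ m = Fintype.card V * (Fintype.card V : ℝ) ^ (m - 1) := by
        rw [← pow_succ']
        congr 1
        omega
      rw [e1, ← mul_assoc]
      exact mul_le_mul_of_nonneg_right hZ (by positivity)
    have h7 : c / 2 * (Fintype.card V : ℝ) ^ m =
        c * (Fintype.card V : ℝ) ^ m - c / 2 * (Fintype.card V : ℝ) ^ m := by ring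
    rw [h7]
    linarith
  obtain ⟨F, f1, f2, f3, f4⟩ := hfam (S.image D) h1 h2
  set F' := F.filter fun u => ∀ j, u j ∉ Z with hF'
  refine ⟨F'.toList.map List.ofFn, ?_, ?_, ?_, ?_, ?_⟩
  · rw [List.nodup_flatten]
    constructor
    · intro l hl
      obtain ⟨u, hu, rfl⟩ := List.mem_map.mp hl
      rw [Finset.mem_toList] at hu
      rw [List.nodup_ofFn]
      exact f2 u (Finset.mem_filter.mp hu).1
    · rw [List.pairwise_map]
      refine List.Pairwise.imp_of_mem ?_ F'.nodup_toList
      intro u v hu hv huv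
      rw [Finset.mem_toList] at hu hv
      have := f3 u (Finset.mem_filter.mp hu).1 v (Finset.mem_filter.mp hv).1 huv
      intro x hx hx2
      rw [List.mem_ofFn] at hx hx2
      exact Set.disjoint_left.mp this hx hx2
  · intro w hw
    obtain ⟨u, _, rfl⟩ := List.mem_map.mp hw
    exact List.length_ofFn
  · intro v hv
    rw [List.mem_flatten] at hv
    obtain ⟨l, hl, hvl⟩ := hv
    obtain ⟨u, hu, rfl⟩ := List.mem_map.mp hl
    rw [Finset.mem_toList] at hu
    rw [List.mem_ofFn] at hvl
    obtain ⟨j, rfl⟩ := hvl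
    exact (Finset.mem_filter.mp hu).2 j
  · rw [List.length_map, Finset.length_toList]
    have : (F'.card : ℝ) ≤ F.card := by exact_mod_cast Finset.card_filter_le _ _
    linarith
  · intro i a ha b hb hab
    have hla := (hT i a ha).1
    have hlb := (hT i b hb).1
    have hex : ∀ (l : List V), l.length = k - 1 → ∃ u : Fin (k - 1) → V, List.ofFn u = l := by
      intro l hl
      have : ∀ (l : List V) (m : ℕ), l.length = m → ∃ u : Fin m → V, List.ofFn u = l := by
        rintro l m rfl
        exact ⟨l.get, List.ofFn_get l⟩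
      exact this l _ hl
    obtain ⟨a', rfl⟩ := hex a hla
    obtain ⟨b', rfl⟩ := hex b hlb
    have hS : ((i, a', b') : X) ∈ S := Finset.mem_filter.mpr ⟨Finset.mem_univ _, hab⟩
    have h3 := f4 _ (Finset.mem_image_of_mem D hS)
    refine le_trans h3 ?_
    have h4 : ((D (i, a', b') ∩ F).image List.ofFn).card = (D (i, a', b') ∩ F).card :=
      Finset.card_image_of_injective _ List.ofFn_injective
    rw [← h4, ← Set.ncard_coe_finset]
    have h5 : (↑((D (i, a', b') ∩ F).image List.ofFn) : Set (List V)) ⊆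
        {w : List V | w ∈ F'.toList.map List.ofFn ∧
          Path H k (List.ofFn a' ++ w ++ List.ofFn b')} := by
      intro w hw
      rw [Finset.mem_coe, Finset.mem_image] at hw
      obtain ⟨u, hu, rfl⟩ := hw
      rw [Finset.mem_inter] at hu
      have hu1 := (Finset.mem_filter.mp hu.1).2
      refine ⟨List.mem_map.mpr ⟨u, ?_, rfl⟩, hu1.1⟩
      rw [Finset.mem_toList, hF', Finset.mem_filter]
      exact ⟨hu.2, hu1.2⟩
    exact_mod_cast Set.ncard_le_ncard h5 (fin_set _ _)

end

theorem cnf (hF : FamStmt) : CnfStmt := by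
  intro k M q c hk hc
  -- parameters of FAM
  have hg : ∀ m : ℕ, ∃ g : ℝ, 0 < g ∧ (0 < m → ∀ γ : ℝ, 0 < γ → γ ≤ g →
    ∃ n₀ : ℕ, ∀ (V : Type) [Fintype V] [DecidableEq V], n₀ ≤ Fintype.card V →
    ∀ 𝒟 : Finset (Finset (Fin m → V)), (𝒟.card : ℝ) ≤ (Fintype.card V : ℝ) ^ (2 * k - 1) →
      (∀ D ∈ 𝒟, c / 2 * (Fintype.card V : ℝ) ^ m ≤ D.card) →
      ∃ F : Finset (Fin m → V), (F.card : ℝ) ≤ γ * Fintype.card V ∧
        (∀ u ∈ F, Function.Injective u) ∧
        (∀ u ∈ F, ∀ v ∈ F, u ≠ v → Disjoint (Set.range u) (Set.range v)) ∧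
        ∀ D ∈ 𝒟, γ * (c / 2) / 8 * Fintype.card V ≤ (D ∩ F).card) := by
    intro m
    by_cases hm : 0 < m
    · obtain ⟨g, hg, h⟩ := hF m (2 * k - 1) (c / 2) hm (by positivity)
      exact ⟨g, hg, fun _ => h⟩
    · exact ⟨1, one_pos, fun h => absurd h hm⟩
  choose g hg0 hg1 using hg
  obtain ⟨x, hx0, hx⟩ := min_exists g hg0 M
  set K : ℝ := (M : ℝ) + 1 with hK
  have hK1 : 1 ≤ K := by rw [hK]; have : (0:ℝ) ≤ M := Nat.cast_nonneg _; linarith
  have hK0 : 0 < K := by linarith
  set c' : ℝ := c / (16 * K ^ 2) with hc'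
  have hc'0 : 0 < c' := by positivity
  set γ₀ : ℝ := min x (c / (4 * K)) with hγ₀
  have hγ₀0 : 0 < γ₀ := lt_min hx0 (by positivity)
  refine ⟨c', γ₀, hc'0, hγ₀0, ?_⟩
  intro γ hγ hγle
  set δ : ℝ := γ / K ^ 2 with hδ
  have hδ0 : 0 < δ := by positivity
  have hδγ : δ ≤ γ := by
    rw [hδ, div_le_iff₀ (by positivity)]
    have : (1:ℝ) ≤ K ^ 2 := one_le_pow₀ hK1
    nlinarith
  have hδx : δ ≤ x := le_trans hδγ (le_trans hγle (min_le_left _ _))
  have hn : ∀ m : ℕ, ∃ n₀ : ℕ, 0 < m → m ≤ M → ∀ (V : Type) [Fintype V] [DecidableEq V],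
      n₀ ≤ Fintype.card V →
    ∀ 𝒟 : Finset (Finset (Fin m → V)), (𝒟.card : ℝ) ≤ (Fintype.card V : ℝ) ^ (2 * k - 1) →
      (∀ D ∈ 𝒟, c / 2 * (Fintype.card V : ℝ) ^ m ≤ D.card) →
      ∃ F : Finset (Fin m → V), (F.card : ℝ) ≤ δ * Fintype.card V ∧
        (∀ u ∈ F, Function.Injective u) ∧
        (∀ u ∈ F, ∀ v ∈ F, u ≠ v → Disjoint (Set.range u) (Set.range v)) ∧
        ∀ D ∈ 𝒟, δ * (c / 2) / 8 * Fintype.card V ≤ (D ∩ F).card := by
    intro m
    by_cases hm : 0 < m
    · by_cases hmM : m ≤ M
      · obtain ⟨n₀, h⟩ := hg1 m hm δ hδ0 (le_trans hδx (hx m hmM))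
        exact ⟨n₀, fun _ _ => h⟩
      · exact ⟨0, fun _ h => absurd h hmM⟩
    · exact ⟨0, fun h => absurd h hm⟩
  choose n₀ hn₀ using hn
  obtain ⟨N, hN⟩ := max_exists n₀ M
  refine ⟨max N q, ?_⟩
  intro V _ _ H T hcard hT hJ W hW
  have hq : q ≤ Fintype.card V := le_trans (le_max_right _ _) hcard
  have hNc : N ≤ Fintype.card V := le_trans (le_max_left _ _) hcard
  set n : ℝ := (Fintype.card V : ℝ) with hnd
  have hn0 : 0 ≤ n := Nat.cast_nonneg _
  have hcγ : c' + γ ≤ c / 2 / K := by
    have h1 : γ ≤ c / (4 * K) := le_trans hγle (min_le_right _ _)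
    have h2 : c' ≤ c / (4 * K) := by
      rw [hc']
      apply div_le_div_of_nonneg_left hc.le (by positivity)
      nlinarith
    have h3 : c / 2 / K = c / (4 * K) + c / (4 * K) := by field_simp; norm_num
    linarith
  have hc'δ : c' * γ ≤ δ * (c / 2) / 8 := by
    rw [hc', hδ]
    apply le_of_eq
    field_simp
    norm_num
  -- the family
  have main : ∀ m : ℕ, m ≤ M → ∃ F : List (List V), F.flatten.Nodup ∧ (∀ w ∈ F, w ≠ []) ∧
      (∀ v ∈ F.flatten, v ∉ W) ∧ (F.flatten.length : ℝ) ≤ m * (δ * M) * n ∧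
      ∀ m' : ℕ, 0 < m' → m' ≤ m → ∀ i, ∀ a ∈ T i, ∀ b ∈ T i,
        c * n ^ m' ≤ con H k m' a b →
        c' * γ * n ≤ ({w : List V | w ∈ F ∧ Path H k (a ++ w ++ b)}.ncard : ℝ) := by
    intro m
    induction m with
    | zero =>
      intro _
      refine ⟨[], by simp, by simp, by simp, by simp, ?_⟩
      intro m' h1 h2
      omega
    | succ m ih =>
      intro hm
      obtain ⟨F, e1, e2, e3, e4, e5⟩ := ih (by omega)
      have hMm : (m : ℝ) ≤ M := by exact_mod_cast (by omega : m ≤ M)
      have hFl : (F.flatten.length : ℝ) ≤ γ * n := by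
        refine le_trans e4 ?_
        apply mul_le_mul_of_nonneg_right _ hn0
        have hM0 : (0:ℝ) ≤ M := Nat.cast_nonneg _
        calc (m : ℝ) * (δ * M) ≤ M * (δ * M) := mul_le_mul_of_nonneg_right hMm (by positivity)
          _ = γ * (M ^ 2 / K ^ 2) := by rw [hδ]; ring
          _ ≤ γ * 1 := by
              apply mul_le_mul_of_nonneg_left _ hγ.le
              rw [div_le_one (by positivity)]
              apply pow_le_pow_left₀ hM0
              rw [hK]; linarith
          _ = γ := mul_one _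
      set Z : Finset V := W ∪ F.flatten.toFinset with hZ
      have hZc : (Z.card : ℝ) ≤ (c' + γ) * n := by
        have h1 : Z.card ≤ W.card + F.flatten.length :=
          le_trans (Finset.card_union_le _ _) (Nat.add_le_add_left (List.toFinset_card_le _) _)
        have h2 : (Z.card : ℝ) ≤ W.card + F.flatten.length := by exact_mod_cast h1
        linarith
      have hZm : ((m + 1 : ℕ) : ℝ) * Z.card ≤ c / 2 * n := by
        have h1 : ((m + 1 : ℕ) : ℝ) ≤ K := by
          rw [hK]
          push_cast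
          linarith
        calc ((m + 1 : ℕ) : ℝ) * Z.card ≤ K * ((c' + γ) * n) :=
              mul_le_mul h1 hZc (Nat.cast_nonneg _) hK0.le
          _ ≤ K * (c / 2 / K * n) := by
              apply mul_le_mul_of_nonneg_left _ hK0.le
              exact mul_le_mul_of_nonneg_right hcγ hn0
          _ = c / 2 * n := by field_simp
      obtain ⟨F2, g1, g2, g3, g4, g5⟩ := fam_step H k (m + 1) q c δ hk (by omega) hc T hT Z hZm hq
        (hn₀ (m + 1) (by omega) hm V (le_trans (hN (m + 1) hm) hNc))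
      have hF2l : F2.flatten.length = F2.length * (m + 1) := by
        rw [List.length_flatten]
        have : F2.map List.length = List.replicate F2.length (m + 1) := by
          rw [List.eq_replicate_iff]
          refine ⟨by simp, ?_⟩
          intro b hb
          obtain ⟨w, hw, rfl⟩ := List.mem_map.mp hb
          exact g2 w hw
        rw [this, List.sum_replicate, smul_eq_mul]
      refine ⟨F ++ F2, ?_, ?_, ?_, ?_, ?_⟩
      · rw [List.flatten_append, List.nodup_append]
        refine ⟨e1, g1, ?_⟩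
        intro a ha b hb hab
        apply g3 b hb
        rw [hZ, Finset.mem_union, List.mem_toFinset]
        exact Or.inr (hab ▸ ha)
      · intro w hw
        rcases List.mem_append.mp hw with h | h
        · exact e2 w h
        · intro h0
          have := g2 w h
          rw [h0] at this
          simp at this
      · intro v hv
        rw [List.flatten_append, List.mem_append] at hv
        rcases hv with h | h
        · exact e3 v h
        · intro hvW
          exact g3 v h (Finset.mem_union_left _ hvW)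
      · rw [List.flatten_append, List.length_append, hF2l]
        push_cast
        have h1 : (F2.length : ℝ) * ((m : ℝ) + 1) ≤ δ * n * M := by
          apply mul_le_mul g4 _ (by positivity) (by positivity)
          have : ((m + 1 : ℕ) : ℝ) ≤ M := by exact_mod_cast hm
          push_cast at this
          exact this
        nlinarith
      · intro m' h1 h2 i a ha b hb hab
        rcases Nat.lt_or_ge m' (m + 1) with h3 | h3
        · refine le_trans (e5 m' h1 (by omega) i a ha b hb hab) ?_
          have : {w : List V | w ∈ F ∧ Path H k (a ++ w ++ b)} ⊆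
              {w : List V | w ∈ F ++ F2 ∧ Path H k (a ++ w ++ b)} :=
            fun w hw => ⟨List.mem_append_left _ hw.1, hw.2⟩
          exact_mod_cast Set.ncard_le_ncard this (fin_set _ _)
        · have hmm : m' = m + 1 := by omega
          subst hmm
          have h4 := g5 i a ha b hb hab
          have h5 : c' * γ * n ≤ δ * (c / 2) / 8 * n := mul_le_mul_of_nonneg_right hc'δ hn0
          refine le_trans h5 (le_trans h4 ?_)
          have : {w : List V | w ∈ F2 ∧ Path H k (a ++ w ++ b)} ⊆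
              {w : List V | w ∈ F ++ F2 ∧ Path H k (a ++ w ++ b)} :=
            fun w hw => ⟨List.mem_append_right _ hw.1, hw.2⟩
          exact_mod_cast Set.ncard_le_ncard this (fin_set _ _)
  obtain ⟨F, e1, e2, e3, e4, e5⟩ := main M le_rfl
  refine ⟨F, e1, nodup_of_flatten e1 e2, e2, e3, ?_, ?_⟩
  · refine le_trans e4 ?_
    apply mul_le_mul_of_nonneg_right _ hn0
    have hM0 : (0:ℝ) ≤ M := Nat.cast_nonneg _
    calc (M : ℝ) * (δ * M) = γ * (M ^ 2 / K ^ 2) := by rw [hδ]; ring
      _ ≤ γ * 1 := by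
          apply mul_le_mul_of_nonneg_left _ hγ.le
          rw [div_le_one (by positivity)]
          apply pow_le_pow_left₀ hM0
          rw [hK]; linarith
      _ = γ := mul_one _
  · intro i a ha b hb hab
    obtain ⟨m, hm, hcon⟩ := hJ i a ha b hb hab
    rcases Nat.eq_zero_or_pos m with h0 | h0
    · left
      subst h0
      rw [pow_zero, mul_one] at hcon
      have hpos : 0 < con H k 0 a b := by
        have : (0 : ℝ) < con H k 0 a b := lt_of_lt_of_le hc hcon
        exact_mod_cast this
      unfold con at hpos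
      have hne := (Set.ncard_pos (Set.toFinite _)).mp hpos
      obtain ⟨w, hw⟩ := hne
      have hw' : Path H k (a ++ List.ofFn w ++ b) := hw
      rw [List.ofFn_zero, List.append_nil] at hw'
      exact hw'
    · right
      exact e5 m h0 hm i a ha b hb hcon

end Pool.Agent.KK.H52
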