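import Pool.Agent.KK.StmtsC

/-! Squad KK: counting lemmas (helper52), used by GDC and CNF. -/

set_option autoImplicit false

open scoped BigOperators

namespace Pool.Agent.KK.H52

section fib
variable {A B : Type} [Fintype A] [Fintype B]

theorem ncard_eq (S : Set A) [DecidablePred (· ∈ S)] :
    S.ncard = (Finset.univ.filter (· ∈ S)).card := by
  rw [← Set.ncard_coe_finset]
  congr
  ext x
  simp

/-- many choices for the first component, then many for the second -/
theorem fib_count (S : Set A) (T : A → Set B) (s t : ℝ) (ht0 : 0 ≤ t)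
    (hs : s ≤ (S.ncard : ℝ)) (ht : ∀ a ∈ S, t ≤ ((T a).ncard : ℝ)) :
    s * t ≤ ({p : A × B | p.1 ∈ S ∧ p.2 ∈ T p.1}.ncard : ℝ) := by
  classical
  set S' : Finset A := Finset.univ.filter (· ∈ S) with hS'
  set T' : A → Finset B := fun a => Finset.univ.filter (· ∈ T a) with hT'
  have h1 : ∑ a ∈ S', (T' a).card ≤ {p : A × B | p.1 ∈ S ∧ p.2 ∈ T p.1}.ncard := by
    rw [← Finset.card_sigma, ncard_eq]
    apply Finset.card_le_card_of_injOn (fun x : (Σ _ : A, B) => (x.1, x.2))
    · rintro ⟨a, b⟩ hx
      have hx' : (⟨a, b⟩ : Σ _ : A, B) ∈ S'.sigma T' := hx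
      rw [Finset.mem_sigma] at hx'
      show (a, b) ∈ Finset.univ.filter (· ∈ {p : A × B | p.1 ∈ S ∧ p.2 ∈ T p.1})
      rw [Finset.mem_filter]
      exact ⟨Finset.mem_univ _, (Finset.mem_filter.mp hx'.1).2, (Finset.mem_filter.mp hx'.2).2⟩
    · rintro ⟨a, b⟩ _ ⟨a', b'⟩ _ h
      simp only [Prod.mk.injEq] at h
      obtain ⟨rfl, rfl⟩ := h
      rfl
  calc s * t ≤ (S'.card : ℝ) * t := by
        rw [ncard_eq] at hs
        exact mul_le_mul_of_nonneg_right hs ht0
    _ = ∑ _a ∈ S', t := by rw [Finset.sum_const, nsmul_eq_mul]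
    _ ≤ ∑ a ∈ S', ((T' a).card : ℝ) := by
        apply Finset.sum_le_sum
        intro a ha
        have := ht a (Finset.mem_filter.mp ha).2
        rwa [ncard_eq] at this
    _ ≤ _ := by
        rw [← Nat.cast_sum]
        exact_mod_cast h1

theorem pi_count {m : ℕ} (S : Fin m → Set A) (s : ℝ) (hs0 : 0 ≤ s)
    (hs : ∀ i, s ≤ ((S i).ncard : ℝ)) :
    s ^ m ≤ ({f : Fin m → A | ∀ i, f i ∈ S i}.ncard : ℝ) := by
  classical
  have h1 : {f : Fin m → A | ∀ i, f i ∈ S i}.ncard =
      (Fintype.piFinset fun i => Finset.univ.filter (· ∈ S i)).card := by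
    rw [← Set.ncard_coe_finset]
    congr
    ext f
    simp [Fintype.mem_piFinset]
  rw [h1, Fintype.card_piFinset, Nat.cast_prod]
  calc s ^ m = ∏ _i : Fin m, s := by simp
    _ ≤ _ := by
        apply Finset.prod_le_prod
        · intro i _; exact hs0
        · intro i _
          have := hs i
          rwa [ncard_eq] at this

end fib

section bad
variable {V : Type} [Fintype V]

theorem eq_count (m : ℕ) (i : Fin (m + 1)) (g : (Fin m → V) → V) :
    {u : Fin (m + 1) → V | u i = g (i.removeNth u)}.ncard ≤ Fintype.card V ^ m := by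
  classical
  have h : {u : Fin (m + 1) → V | u i = g (i.removeNth u)}.ncard ≤
      (Set.univ : Set (Fin m → V)).ncard := by
    apply Set.ncard_le_ncard_of_injOn (fun u => i.removeNth u)
    · intro u _
      exact Set.mem_univ _
    · intro u hu v hv huv
      have hu' : u i = g (i.removeNth u) := hu
      have hv' : v i = g (i.removeNth v) := hv
      have huv' : i.removeNth u = i.removeNth v := huv
      rw [← Fin.insertNth_self_removeNth i u, ← Fin.insertNth_self_removeNth i v, huv', hu', hv',
        huv']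
  rw [Set.ncard_univ, Nat.card_eq_fintype_card, Fintype.card_fun, Fintype.card_fin] at h
  exact h

theorem pair_count (m : ℕ) (i j : Fin (m + 1)) (hij : i ≠ j) :
    {u : Fin (m + 1) → V | u i = u j}.ncard ≤ Fintype.card V ^ m := by
  obtain ⟨j', rfl⟩ := Fin.exists_succAbove_eq (x := j) (y := i) hij.symm
  exact eq_count m i (fun w => w j')

theorem val_count (m : ℕ) (i : Fin (m + 1)) (a : V) :
    {u : Fin (m + 1) → V | u i = a}.ncard ≤ Fintype.card V ^ m :=
  eq_count m i (fun _ => a)

/-- functions which take a value in a given set -/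
theorem hit_count (m : ℕ) (Z : Finset V) :
    {u : Fin m → V | ∃ i, u i ∈ Z}.ncard ≤ m * Z.card * Fintype.card V ^ (m - 1) := by
  classical
  cases m with
  | zero =>
    have : {u : Fin 0 → V | ∃ i, u i ∈ Z} = ∅ := by
      ext u
      simp
    rw [this]
    simp
  | succ m =>
    have h1 : {u : Fin (m + 1) → V | ∃ i, u i ∈ Z} ⊆
        ⋃ p ∈ (Finset.univ ×ˢ Z : Finset (Fin (m + 1) × V)), {u : Fin (m + 1) → V | u p.1 = p.2} := by
      rintro u ⟨i, hi⟩
      rw [Set.mem_iUnion₂]
      exact ⟨(i, u i), Finset.mem_product.mpr ⟨Finset.mem_univ _, hi⟩, rfl⟩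
    calc {u : Fin (m + 1) → V | ∃ i, u i ∈ Z}.ncard
        ≤ (⋃ p ∈ (Finset.univ ×ˢ Z : Finset (Fin (m + 1) × V)),
            {u : Fin (m + 1) → V | u p.1 = p.2}).ncard :=
          Set.ncard_le_ncard h1 (Set.toFinite _)
      _ ≤ ∑ p ∈ (Finset.univ ×ˢ Z : Finset (Fin (m + 1) × V)),
            {u : Fin (m + 1) → V | u p.1 = p.2}.ncard := Finset.set_ncard_biUnion_le _ _
      _ ≤ ∑ _p ∈ (Finset.univ ×ˢ Z : Finset (Fin (m + 1) × V)), Fintype.card V ^ m :=
          Finset.sum_le_sum fun p _ => val_count m p.1 p.2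
      _ = (m + 1) * Z.card * Fintype.card V ^ (m + 1 - 1) := by
          rw [Finset.sum_const, Finset.card_product, Finset.card_univ, Fintype.card_fin,
            smul_eq_mul, Nat.add_sub_cancel]

/-- functions with a repetition together with a given injective list -/
theorem bad_count (m k : ℕ) (y : Fin k → V) (hy : Function.Injective y) :
    {u : Fin m → V | ¬ (List.ofFn u ++ List.ofFn y).Nodup}.ncard ≤
      (m + k) ^ 2 * Fintype.card V ^ (m - 1) := by
  classical
  cases m with
  | zero =>
    have : {u : Fin 0 → V | ¬ (List.ofFn u ++ List.ofFn y).Nodup} = ∅ := by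
      ext u
      simp only [List.ofFn_zero, List.nil_append, Set.mem_empty_iff_false, iff_false]
      intro h
      exact h (List.nodup_ofFn.mpr hy)
    rw [this]
    simp
  | succ m =>
    have h1 : {u : Fin (m + 1) → V | ¬ (List.ofFn u ++ List.ofFn y).Nodup} ⊆
        (⋃ p ∈ (Finset.univ : Finset (Fin (m + 1) × Fin (m + 1))).filter (fun p => p.1 ≠ p.2),
          {u : Fin (m + 1) → V | u p.1 = u p.2}) ∪
        ⋃ p ∈ (Finset.univ : Finset (Fin (m + 1) × Fin k)), {u : Fin (m + 1) → V | u p.1 = y p.2} := by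
      intro u hu
      by_contra hc
      apply hu
      rw [Set.mem_union, not_or] at hc
      rw [List.nodup_append]
      refine ⟨?_, List.nodup_ofFn.mpr hy, ?_⟩
      · rw [List.nodup_ofFn]
        intro i j hij
        by_contra hne
        apply hc.1
        rw [Set.mem_iUnion₂]
        exact ⟨(i, j), Finset.mem_filter.mpr ⟨Finset.mem_univ _, hne⟩, hij⟩
      · intro x hx z hz hxz
        rw [List.mem_ofFn] at hx hz
        obtain ⟨i, hi⟩ := hx
        obtain ⟨l, hl⟩ := hz
        apply hc.2
        rw [Set.mem_iUnion₂]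
        exact ⟨(i, l), Finset.mem_univ _, by show u i = y l; rw [hi, hl, hxz]⟩
    calc {u : Fin (m + 1) → V | ¬ (List.ofFn u ++ List.ofFn y).Nodup}.ncard
        ≤ _ := Set.ncard_le_ncard h1 (Set.toFinite _)
      _ ≤ _ := Set.ncard_union_le _ _
      _ ≤ (∑ p ∈ (Finset.univ : Finset (Fin (m + 1) × Fin (m + 1))).filter (fun p => p.1 ≠ p.2),
            {u : Fin (m + 1) → V | u p.1 = u p.2}.ncard) +
          ∑ p ∈ (Finset.univ : Finset (Fin (m + 1) × Fin k)),
            {u : Fin (m + 1) → V | u p.1 = y p.2}.ncard :=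
          Nat.add_le_add (Finset.set_ncard_biUnion_le _ _) (Finset.set_ncard_biUnion_le _ _)
      _ ≤ (∑ _p ∈ (Finset.univ : Finset (Fin (m + 1) × Fin (m + 1))).filter (fun p => p.1 ≠ p.2),
            Fintype.card V ^ m) +
          ∑ _p ∈ (Finset.univ : Finset (Fin (m + 1) × Fin k)), Fintype.card V ^ m :=
          Nat.add_le_add
            (Finset.sum_le_sum fun p hp => pair_count m p.1 p.2 (Finset.mem_filter.mp hp).2)
            (Finset.sum_le_sum fun p _ => val_count m p.1 (y p.2))
      _ ≤ (m + 1) * (m + 1) * Fintype.card V ^ m + (m + 1) * k * Fintype.card V ^ m := by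
          rw [Finset.sum_const, Finset.sum_const, smul_eq_mul, smul_eq_mul, Finset.card_univ,
            Fintype.card_prod, Fintype.card_fin, Fintype.card_fin]
          apply Nat.add_le_add_right
          apply Nat.mul_le_mul_right
          refine le_trans (Finset.card_filter_le _ _) ?_
          rw [Finset.card_univ, Fintype.card_prod, Fintype.card_fin]
      _ ≤ (m + 1 + k) ^ 2 * Fintype.card V ^ (m + 1 - 1) := by
          rw [Nat.add_sub_cancel, ← Nat.add_mul]
          apply Nat.mul_le_mul_right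
          nlinarith

end bad

end Pool.Agent.KK.H52
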