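import Pool.Agent.Helper52_KK.Cnt

/-! Squad KK, row GDC (helper52). -/

set_option autoImplicit false

open scoped BigOperators

namespace Pool.Agent.KK.H52

section defs
variable {V : Type}

/-- a piece -/
def pc {r : ℕ} (p : (Fin r → V) × (Fin r → V)) (x : V) : List V :=
  List.ofFn p.1 ++ [x] ++ List.ofFn p.2

/-- the chain of `i` -/
def wv {k : ℕ} (y z : Fin k → V) (v : Fin k → V × V × V) (i : Fin k) : Fin 5 → V :=
  ![y i, (v i).1, (v i).2.1, (v i).2.2, z i]

def ji {k : ℕ} (t : Fin (4 * k)) : Fin 4 × Fin k := finProdFinEquiv.symm t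

def prv {k : ℕ} (y z : Fin k → V) (v : Fin k → V × V × V) (t : Fin (4 * k)) : V :=
  wv y z v (ji t).2 (ji t).1.castSucc

def cur {k : ℕ} (y z : Fin k → V) (v : Fin k → V × V × V) (t : Fin (4 * k)) : V :=
  wv y z v (ji t).2 (ji t).1.succ

/-- blocks, chains, exchange tuples -/
abbrev Om (V : Type) (k : ℕ) : Type :=
  (((Fin k → V) × (Fin k → V) × (Fin k → V)) × (Fin k → V × V × V)) ×
    (Fin (4 * k) → (Fin (k - 1) → V) × (Fin (k - 1) → V))

def pcs {k : ℕ} (y : Fin k → V) (o : Om V k) : List (List V) :=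
  List.ofFn (fun t => pc (o.2 t) (cur y o.1.1.2.1 o.1.2 t)) ++
    [List.ofFn o.1.1.1 ++ List.ofFn o.1.1.2.2]

def pcq {k : ℕ} (y : Fin k → V) (o : Om V k) : List (List V) :=
  List.ofFn (fun t => pc (o.2 t) (prv y o.1.1.2.1 o.1.2 t)) ++
    [List.ofFn o.1.1.1 ++ List.ofFn o.1.1.2.1 ++ List.ofFn o.1.1.2.2]

theorem pc_len {r : ℕ} (p : (Fin r → V) × (Fin r → V)) (x : V) : (pc p x).length = 2 * r + 1 := by
  simp [pc]; omega

theorem pcs_len {k : ℕ} (y : Fin k → V) (o : Om V k) :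
    (pcs y o).map List.length = gadLen k := by
  unfold pcs gadLen
  rw [List.map_append, List.map_ofFn, List.map_singleton, ← List.ofFn_const]
  congr 1
  · congr 1
    funext t
    exact pc_len _ _
  · simp; omega

theorem flat_len {k : ℕ} (y : Fin k → V) (o : Om V k) :
    (pcs y o).flatten.length = (gadLen k).sum := by
  rw [List.length_flatten, pcs_len]

theorem pc_inj {r : ℕ} {p q : (Fin r → V) × (Fin r → V)} {x z : V} (h : pc p x = pc q z) :
    p = q ∧ x = z := by
  unfold pc at h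
  have h1 := List.append_inj h (by simp)
  have h2 := List.append_inj h1.1 (by simp)
  refine ⟨Prod.ext (List.ofFn_injective h2.1) (List.ofFn_injective h1.2), ?_⟩
  have := h2.2
  simpa using this

theorem pcs_inj {k : ℕ} (y : Fin k → V) (o o' : Om V k) (h : pcs y o = pcs y o') : o = o' := by
  unfold pcs at h
  have h1 := List.append_inj h (by simp)
  have h2 : (fun t => pc (o.2 t) (cur y o.1.1.2.1 o.1.2 t)) =
      (fun t => pc (o'.2 t) (cur y o'.1.1.2.1 o'.1.2 t)) := List.ofFn_injective h1.1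
  have h3 : List.ofFn o.1.1.1 ++ List.ofFn o.1.1.2.2 = List.ofFn o'.1.1.1 ++ List.ofFn o'.1.1.2.2 := by
    have := h1.2
    simpa using this
  have h4 := List.append_inj h3 (by simp)
  have hb1 : o.1.1.1 = o'.1.1.1 := List.ofFn_injective h4.1
  have hb3 : o.1.1.2.2 = o'.1.1.2.2 := List.ofFn_injective h4.2
  have hp : o.2 = o'.2 := by
    funext t
    exact (pc_inj (congrFun h2 t)).1
  have hc : ∀ t, cur y o.1.1.2.1 o.1.2 t = cur y o'.1.1.2.1 o'.1.2 t := fun t =>
    (pc_inj (congrFun h2 t)).2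
  have hw : ∀ (j : Fin 4) (i : Fin k), wv y o.1.1.2.1 o.1.2 i j.succ =
      wv y o'.1.1.2.1 o'.1.2 i j.succ := by
    intro j i
    have := hc (finProdFinEquiv (j, i))
    unfold cur ji at this
    rw [Equiv.symm_apply_apply] at this
    exact this
  have hb2 : o.1.1.2.1 = o'.1.1.2.1 := by
    funext i
    exact hw 3 i
  have hv : o.1.2 = o'.1.2 := by
    funext i
    exact Prod.ext (hw 0 i) (Prod.ext (hw 1 i) (hw 2 i))
  exact Prod.ext (Prod.ext (Prod.ext hb1 (Prod.ext hb2 hb3)) hv) hp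

theorem pcs_flat_inj {k : ℕ} (y : Fin k → V) (o o' : Om V k)
    (h : (pcs y o).flatten = (pcs y o').flatten) : o = o' := by
  apply pcs_inj y
  rw [List.eq_iff_flatten_eq]
  exact ⟨h, by rw [pcs_len, pcs_len]⟩

variable [DecidableEq V]

theorem count_ofFn {m : ℕ} (a : V) (f : Fin m → V) :
    (List.ofFn f).count a = ∑ i, [f i].count a := by
  induction m with
  | zero => simp
  | succ m ih =>
    rw [List.ofFn_succ, List.count_cons, Fin.sum_univ_succ, ih, List.count_singleton]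
    ring

theorem count_pc {r : ℕ} (a : V) (p : (Fin r → V) × (Fin r → V)) (x : V) :
    (pc p x).count a = (List.ofFn p.1).count a + (List.ofFn p.2).count a + [x].count a := by
  unfold pc
  rw [List.count_append, List.count_append]
  ring

theorem sum_ji {k : ℕ} (F : Fin 4 → Fin k → ℕ) :
    ∑ t : Fin (4 * k), F (ji t).1 (ji t).2 = ∑ j, ∑ i, F j i := by
  rw [← Fintype.sum_prod_type' F]
  exact Equiv.sum_comp (finProdFinEquiv (m := 4) (n := k)).symm (fun x => F x.1 x.2)

theorem perm_pcs {k : ℕ} (y : Fin k → V) (o : Om V k) :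
    (pcq y o).flatten.Perm ((pcs y o).flatten ++ List.ofFn y) := by
  rw [List.perm_iff_count]
  intro a
  rw [List.count_append, List.count_flatten, List.count_flatten]
  unfold pcs pcq
  rw [List.map_append, List.map_append, List.sum_append, List.sum_append, List.map_ofFn,
    List.map_ofFn, List.sum_ofFn, List.sum_ofFn]
  simp only [Function.comp, count_pc, List.map_cons, List.map_nil, List.sum_cons, List.sum_nil,
    List.count_append, Finset.sum_add_distrib]
  have h1 : ∑ t : Fin (4 * k), [cur y o.1.1.2.1 o.1.2 t].count a =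
      ∑ j : Fin 4, ∑ i, [wv y o.1.1.2.1 o.1.2 i j.succ].count a :=
    sum_ji (fun j i => [wv y o.1.1.2.1 o.1.2 i j.succ].count a)
  have h2 : ∑ t : Fin (4 * k), [prv y o.1.1.2.1 o.1.2 t].count a =
      ∑ j : Fin 4, ∑ i, [wv y o.1.1.2.1 o.1.2 i j.castSucc].count a :=
    sum_ji (fun j i => [wv y o.1.1.2.1 o.1.2 i j.castSucc].count a)
  have h3 : (List.ofFn y).count a = ∑ i, [wv y o.1.1.2.1 o.1.2 i 0].count a := count_ofFn a y
  have h4 : (List.ofFn o.1.1.2.1).count a = ∑ i, [wv y o.1.1.2.1 o.1.2 i 4].count a :=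
    count_ofFn a _
  rw [h1, h2, h3, h4, Fin.sum_univ_four, Fin.sum_univ_four]
  have e1 : (Fin.castSucc (0 : Fin 4)) = (0 : Fin 5) := rfl
  have e2 : (Fin.castSucc (1 : Fin 4)) = (1 : Fin 5) := rfl
  have e3 : (Fin.castSucc (2 : Fin 4)) = (2 : Fin 5) := rfl
  have e4 : (Fin.castSucc (3 : Fin 4)) = (3 : Fin 5) := rfl
  have e5 : (Fin.succ (0 : Fin 4)) = (1 : Fin 5) := rfl
  have e6 : (Fin.succ (1 : Fin 4)) = (2 : Fin 5) := rfl
  have e7 : (Fin.succ (2 : Fin 4)) = (3 : Fin 5) := rfl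
  have e8 : (Fin.succ (3 : Fin 4)) = (4 : Fin 5) := rfl
  rw [e1, e2, e3, e4, e5, e6, e7, e8]
  omega

end defs

section gad
variable {V I : Type} [Fintype V] [DecidableEq V]

theorem ends_pc {r : ℕ} (p : (Fin r → V) × (Fin r → V)) (x z : V) :
    SameEnds r (pc p x) (pc p z) := by
  have ht : ∀ x : V, (pc p x).take r = List.ofFn p.1 := by
    intro x
    unfold pc
    rw [List.append_assoc, List.take_append_of_le_length (by simp), List.take_of_length_le (by simp)]
  have hd : ∀ x : V, (pc p x).drop ((pc p x).length - r) = List.ofFn p.2 := by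
    intro x
    rw [pc_len]
    unfold pc
    have : 2 * r + 1 - r = (List.ofFn p.1 ++ [x]).length := by simp; omega
    rw [this, List.drop_left]
  exact ⟨by rw [ht, ht], by rw [hd, hd]⟩

theorem ends_block {k : ℕ} (hk : 1 ≤ k) (b z b' : Fin k → V) :
    SameEnds (k - 1) (List.ofFn b ++ List.ofFn b') (List.ofFn b ++ List.ofFn z ++ List.ofFn b') := by
  constructor
  · rw [List.append_assoc, List.take_append_of_le_length (by simp),
      List.take_append_of_le_length (by simp)]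
  · have h1 : (List.ofFn b ++ List.ofFn b').length - (k - 1) =
        (List.ofFn b).length + 1 := by simp; omega
    have h2 : (List.ofFn b ++ List.ofFn z ++ List.ofFn b').length - (k - 1) =
        (List.ofFn b ++ List.ofFn z).length + 1 := by simp; omega
    have key : ∀ l l' : List V, (l ++ l').drop (l.length + 1) = l'.drop 1 := by
      intro l l'
      rw [List.drop_append, List.drop_eq_nil_of_le (by omega), List.nil_append]
      congr 1
      omega
    rw [h1, h2, key, key]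

theorem forall2_ofFn {m : ℕ} {α β : Type} (R : α → β → Prop) (f : Fin m → α) (g : Fin m → β)
    (h : ∀ t, R (f t) (g t)) : List.Forall₂ R (List.ofFn f) (List.ofFn g) := by
  induction m with
  | zero => simp
  | succ m ih =>
    rw [List.ofFn_succ, List.ofFn_succ]
    exact List.Forall₂.cons (h 0) (ih _ _ fun t => h t.succ)

/-- exchange tuples of `x` and `z` -/
def Ex (H : Finset (Finset V)) (k : ℕ) (T : I → Set (List V)) (x z : V) :
    Set ((Fin (k - 1) → V) × (Fin (k - 1) → V)) :=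
  {p | ∃ i, Seg H k (T i) (T i) (pc p x) ∧ Seg H k (T i) (T i) (pc p z)}

/-- blocks -/
def Bk (H : Finset (Finset V)) (k : ℕ) (T : I → Set (List V)) :
    Set ((Fin k → V) × (Fin k → V) × (Fin k → V)) :=
  {b | (∃ i, Seg H k (T i) (T i) (List.ofFn b.1 ++ List.ofFn b.2.2)) ∧
    Path H k (List.ofFn b.1 ++ List.ofFn b.2.1 ++ List.ofFn b.2.2)}

/-- chains -/
def Cn (H : Finset (Finset V)) (k : ℕ) (T : I → Set (List V)) (c : ℝ) (y z : V) :
    Set (V × V × V) :=
  {v | Swp H k T c y v.1 ∧ Swp H k T c v.1 v.2.1 ∧ Swp H k T c v.2.1 v.2.2 ∧ Swp H k T c v.2.2 z}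

/-- chains for all `i` -/
def TV (H : Finset (Finset V)) (k : ℕ) (T : I → Set (List V)) (c : ℝ) (y z : Fin k → V) :
    Set (Fin k → V × V × V) := {v | ∀ i, v i ∈ Cn H k T c (y i) (z i)}

/-- exchange tuples for all `t` -/
def TP (H : Finset (Finset V)) (k : ℕ) (T : I → Set (List V)) (y z : Fin k → V)
    (v : Fin k → V × V × V) : Set (Fin (4 * k) → (Fin (k - 1) → V) × (Fin (k - 1) → V)) :=
  {p | ∀ t, p t ∈ Ex H k T (prv y z v t) (cur y z v t)}

/-- blocks with chains -/
def BV (H : Finset (Finset V)) (k : ℕ) (T : I → Set (List V)) (c : ℝ) (y : Fin k → V) :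
    Set (((Fin k → V) × (Fin k → V) × (Fin k → V)) × (Fin k → V × V × V)) :=
  {q | q.1 ∈ Bk H k T ∧ q.2 ∈ TV H k T c y q.1.2.1}

/-- all choices -/
def Ch (H : Finset (Finset V)) (k : ℕ) (T : I → Set (List V)) (c : ℝ) (y : Fin k → V) :
    Set (Om V k) := {o | o.1 ∈ BV H k T c y ∧ o.2 ∈ TP H k T y o.1.1.2.1 o.1.2}

omit [Fintype V] [DecidableEq V] in
theorem ji_cases {k : ℕ} (P : V → V → Prop) (y z : Fin k → V) (v : Fin k → V × V × V)
    (h0 : ∀ i, P (y i) (v i).1) (h1 : ∀ i, P (v i).1 (v i).2.1)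
    (h2 : ∀ i, P (v i).2.1 (v i).2.2) (h3 : ∀ i, P (v i).2.2 (z i)) (t : Fin (4 * k)) :
    P (prv y z v t) (cur y z v t) := by
  unfold prv cur
  generalize (ji t).2 = i
  have : ∀ j : Fin 4, P (wv y z v i j.castSucc) (wv y z v i j.succ) := by
    intro j
    fin_cases j
    · exact h0 i
    · exact h1 i
    · exact h2 i
    · exact h3 i
  exact this _

theorem bv_count (H : Finset (Finset V)) (k : ℕ) (T : I → Set (List V)) (c_b c₃ c_s : ℝ)
    (h₃ : 0 < c₃)
    (hb : c_b * (Fintype.card V : ℝ) ^ (3 * k) ≤ ((Bk H k T).ncard : ℝ))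
    (hc : ∀ y z : V, c₃ * (Fintype.card V : ℝ) ^ 3 ≤ ((Cn H k T c_s y z).ncard : ℝ))
    (y : Fin k → V) :
    (c_b * (Fintype.card V : ℝ) ^ (3 * k)) * (c₃ * (Fintype.card V : ℝ) ^ 3) ^ k ≤
      ((BV H k T c_s y).ncard : ℝ) := by
  have hn : (0 : ℝ) ≤ Fintype.card V := Nat.cast_nonneg _
  have h1 : ∀ b ∈ Bk H k T, (c₃ * (Fintype.card V : ℝ) ^ 3) ^ k ≤
      ((TV H k T c_s y b.2.1).ncard : ℝ) := by
    intro b _
    exact pi_count (fun i => Cn H k T c_s (y i) (b.2.1 i)) _ (by positivity)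
      (fun i => hc _ _)
  exact fib_count (Bk H k T) (fun b => TV H k T c_s y b.2.1) _ _ (by positivity) hb h1

theorem ch_count (H : Finset (Finset V)) (k : ℕ) (T : I → Set (List V)) (c_b c₃ c_s : ℝ)
    (h₃ : 0 < c₃) (hs : 0 < c_s)
    (hb : c_b * (Fintype.card V : ℝ) ^ (3 * k) ≤ ((Bk H k T).ncard : ℝ))
    (hc : ∀ y z : V, c₃ * (Fintype.card V : ℝ) ^ 3 ≤ ((Cn H k T c_s y z).ncard : ℝ))
    (y : Fin k → V) :
    (c_b * (Fintype.card V : ℝ) ^ (3 * k)) * (c₃ * (Fintype.card V : ℝ) ^ 3) ^ k *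
      (c_s * (Fintype.card V : ℝ) ^ (2 * (k - 1))) ^ (4 * k) ≤ ((Ch H k T c_s y).ncard : ℝ) := by
  have hn : (0 : ℝ) ≤ Fintype.card V := Nat.cast_nonneg _
  have h1 : ∀ q ∈ BV H k T c_s y, (c_s * (Fintype.card V : ℝ) ^ (2 * (k - 1))) ^ (4 * k) ≤
      ((TP H k T y q.1.2.1 q.2).ncard : ℝ) := by
    intro q hq
    refine pi_count (fun t => Ex H k T (prv y q.1.2.1 q.2 t) (cur y q.1.2.1 q.2 t)) _
      (by positivity) (fun t => ?_)
    exact ji_cases (fun x z => c_s * (Fintype.card V : ℝ) ^ (2 * (k - 1)) ≤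
      ((Ex H k T x z).ncard : ℝ)) y q.1.2.1 q.2 (fun i => (hq.2 i).1) (fun i => (hq.2 i).2.1)
      (fun i => (hq.2 i).2.2.1) (fun i => (hq.2 i).2.2.2) t
  exact fib_count (BV H k T c_s y) (fun q => TP H k T y q.1.2.1 q.2) _ _ (by positivity)
    (bv_count H k T c_b c₃ c_s h₃ hb hc y) h1

theorem gad_of {H : Finset (Finset V)} {k : ℕ} (hk : 1 ≤ k) {T : I → Set (List V)} {c : ℝ}
    {y : Fin k → V} {o : Om V k} (ho : o ∈ Ch H k T c y) (l : List V)
    (hl : l = (pcs y o).flatten) (hnd : (l ++ List.ofFn y).Nodup) :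
    Gad H k T (gadLen k) l (List.ofFn y) := by
  have hlen : l.length = (gadLen k).sum := by rw [hl]; exact flat_len y o
  have hsp : (gadLen k).splitLengths l = pcs y o := by
    rw [List.eq_iff_flatten_eq]
    refine ⟨?_, ?_⟩
    · rw [List.flatten_splitLengths _ _ hlen.le, hl]
    · rw [List.map_splitLengths_length _ _ hlen.ge, pcs_len]
  obtain ⟨⟨hB, hC⟩, hE⟩ := ho
  refine ⟨hnd, ?_, pcq y o, ?_, ?_⟩
  · rw [hsp]
    intro p hp
    unfold pcs at hp
    rw [List.mem_append, List.mem_ofFn] at hp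
    rcases hp with ⟨t, rfl⟩ | hp
    · obtain ⟨i, _, h2⟩ := hE t
      exact ⟨i, h2⟩
    · rw [List.mem_singleton] at hp
      rw [hp]
      exact hB.1
  · rw [hsp]
    unfold pcs pcq
    apply List.rel_append
    · apply forall2_ofFn
      intro t
      obtain ⟨i, h1, _⟩ := hE t
      exact ⟨ends_pc _ _ _, h1.1⟩
    · exact List.Forall₂.cons ⟨ends_block hk _ _ _, hB.2⟩ List.Forall₂.nil
  · rw [hl]
    exact perm_pcs y o

theorem gdc : GdcStmt := by
  intro k c_b c₃ c_s hk hb0 h₃0 hs0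
  set M := (gadLen k).sum with hM
  set c₀ : ℝ := c_b * c₃ ^ k * c_s ^ (4 * k) with hc₀
  have hc₀pos : 0 < c₀ := by positivity
  have hMval : M = 3 * k + 3 * k + 2 * (k - 1) * (4 * k) := by
    rw [hM]
    unfold gadLen
    rw [List.sum_append, List.sum_replicate, List.sum_singleton, smul_eq_mul]
    obtain ⟨r, rfl⟩ : ∃ r, k = r + 1 := ⟨k - 1, by omega⟩
    rw [Nat.add_sub_cancel]
    ring
  have hMpos : 0 < M := by rw [hMval]; omega
  obtain ⟨N, hN⟩ := exists_nat_ge (2 * ((M + k : ℕ) : ℝ) ^ 2 / c₀)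
  refine ⟨c₀ / 2, N, by positivity, ?_⟩
  intro V I _ _ H T hn _ hB hC y hy
  have hnN : (N : ℝ) ≤ (Fintype.card V : ℝ) := by exact_mod_cast hn
  set n : ℝ := (Fintype.card V : ℝ) with hnd
  have hn0 : 0 ≤ n := Nat.cast_nonneg _
  have h1 := ch_count H k T c_b c₃ c_s h₃0 hs0 hB hC y
  have h2 : (c_b * n ^ (3 * k)) * (c₃ * n ^ 3) ^ k * (c_s * n ^ (2 * (k - 1))) ^ (4 * k) =
      c₀ * n ^ M := by
    rw [mul_pow, mul_pow, ← pow_mul, ← pow_mul, hMval, pow_add, pow_add, hc₀]
    ring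
  rw [← hnd, h2] at h1
  -- the functions given by the choices
  have hex : ∀ o : Om V k, ∃ u : Fin M → V, List.ofFn u = (pcs y o).flatten := by
    intro o
    have hlen : (pcs y o).flatten.length = M := flat_len y o
    have : ∀ (l : List V) (m : ℕ), l.length = m → ∃ u : Fin m → V, List.ofFn u = l := by
      rintro l m rfl
      exact ⟨l.get, List.ofFn_get l⟩
    exact this _ _ hlen
  choose f hf using hex
  have h3 : (Ch H k T c_s y).ncard ≤
      {u : Fin M → V | ∃ o ∈ Ch H k T c_s y, List.ofFn u = (pcs y o).flatten}.ncard := by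
    apply Set.ncard_le_ncard_of_injOn f
    · intro o ho
      exact ⟨o, ho, hf o⟩
    · intro o _ o' _ hoo
      apply pcs_flat_inj y
      rw [← hf o, ← hf o', hoo]
  have h4 : {u : Fin M → V | ∃ o ∈ Ch H k T c_s y, List.ofFn u = (pcs y o).flatten} ⊆
      {u : Fin M → V | Gad H k T (gadLen k) (List.ofFn u) (List.ofFn y)} ∪
      {u : Fin M → V | ¬ (List.ofFn u ++ List.ofFn y).Nodup} := by
    rintro u ⟨o, ho, hu⟩
    by_cases hnd' : (List.ofFn u ++ List.ofFn y).Nodup
    · exact Or.inl (gad_of (by omega) ho _ hu hnd')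
    · exact Or.inr hnd'
  have h5 := le_trans h3 (le_trans (Set.ncard_le_ncard h4 (Set.toFinite _))
    (Set.ncard_union_le _ _))
  have h6 := bad_count M k y hy
  have h7 : ((Ch H k T c_s y).ncard : ℝ) ≤
      ({u : Fin M → V | Gad H k T (gadLen k) (List.ofFn u) (List.ofFn y)}.ncard : ℝ) +
        ((M + k : ℕ) : ℝ) ^ 2 * n ^ (M - 1) := by
    have := le_trans h5 (Nat.add_le_add_left h6 _)
    have h := (Nat.cast_le (α := ℝ)).mpr this
    push_cast at h ⊢
    exact h
  have h8 : ((M + k : ℕ) : ℝ) ^ 2 * n ^ (M - 1) ≤ c₀ / 2 * n ^ M := by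
    have e1 : n ^ M = n * n ^ (M - 1) := by
      rw [← pow_succ']
      congr 1
      omega
    rw [e1, ← mul_assoc]
    apply mul_le_mul_of_nonneg_right _ (by positivity)
    have h9 := le_trans hN hnN
    rw [div_le_iff₀ hc₀pos] at h9
    linarith
  have h10 : c₀ / 2 * n ^ M = c₀ * n ^ M - c₀ / 2 * n ^ M := by ring
  rw [h10]
  linarith

end gad

end Pool.Agent.KK.H52
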