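import Pool.Agent.KK.StmtsG

set_option autoImplicit false

namespace Pool.Agent.KK.E.H52

theorem win_eq (m r : List Bool) (x y : Bool) (a : ℕ) (ha : a ≤ m.length) :
    ((m ++ x :: y :: (m ++ r)).drop a).take (m.length + 2) = m.drop a ++ x :: y :: m.take a := by
  rw [List.drop_append_of_le_length ha, List.take_append]
  have h1 : (m.drop a).length = m.length - a := List.length_drop
  have h2 : m.length + 2 - (m.drop a).length = a + 2 := by
    rw [h1]; omega
  rw [h2, List.take_of_length_le (by rw [h1]; omega), List.take_succ_cons, List.take_succ_cons,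
    List.take_append_of_le_length ha]

theorem wt_win (m r : List Bool) (x y : Bool) (a n : ℕ) (ha : a ≤ m.length)
    (hn : n = m.length + 2) :
    wt (((m ++ x :: y :: (m ++ r)).drop a).take n) = wt m + wt [x, y] := by
  rw [hn, win_eq m r x y a ha]
  unfold wt
  have h1 : m.count true = (m.take a).count true + (m.drop a).count true := by
    rw [← List.count_append, List.take_append_drop]
  rw [List.count_append, h1]
  have h2 : (x :: y :: m.take a) = [x, y] ++ m.take a := rfl
  rw [h2, List.count_append]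
  omega

theorem two_mem {V : Type} [DecidableEq V] {S : Finset V} (h : 2 ≤ S.card) :
    ∃ a ∈ S, ∃ b ∈ S, a ≠ b := by
  obtain ⟨a, ha, b, hb, hab⟩ := Finset.one_lt_card.1 h
  exact ⟨a, ha, b, hb, hab⟩

/-- both kinds of moves -/
theorem g_mov_aux (h03 : StmtG03) (h04 : StmtG04) (V : Type) [Fintype V] [DecidableEq V]
    (H : Finset (Finset V)) (X M Z : Finset V)
    (p q B : ℕ) (δ h ε : ℝ) (η θ : ℕ → ℝ) (m : List Bool) (x : Bool) (hA : Amb H X p q B δ)
    (hC : CstG (p + q + 2) B η θ h δ ε) (hM : Mst H X p q η M) (hZ : Z.card ≤ B)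
    (hMZ : Disjoint M Z) (hm : m.length = p + q) (m₁ m₂ : V) (hm1 : m₁ ∈ M) (hm2 : m₂ ∈ M)
    (hne : m₁ ≠ m₂) (hx1 : m₁ ∈ X ↔ x = true) (hx2 : m₂ ∈ X ↔ x = true)
    (hw1 : wt (x :: m ++ [x]) = p + 1) (hw2 : wt m + wt [!x, x] = p ∨ wt m + wt [!x, x] = p + 2) :
    ∃ l : List V, l.Nodup ∧ (∀ v ∈ l, v ∉ Z) ∧
      l.map (fun v => decide (v ∈ X)) = x :: m ++ [x] ∧
      OKl H X (p + q + 2) ε (fw (m ++ [!x]) ++ vx l ++ fw ((!x) :: m)) := by
  have hlen : (x :: m ++ [x]).length = p + q + 2 := by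
    simp [hm]
  have hlast : (x :: m ++ [x]).getD (p + q + 1) false = x := by
    have e1 : (x :: m ++ [x]) = (x :: m) ++ [x] := rfl
    rw [e1, List.getD_append_right _ _ _ _ (by simp [hm])]
    simp [hm]
  obtain ⟨o, ho0, hol, hoM, hoi, holet⟩ := h04 V X M p q (x :: m ++ [x]) m₁ m₂ hlen hw1
    hM.1.1 hM.1.2.1 hm1 hm2 hne (by
      rw [hx1]
      simp) (by
      rw [hlast, hx2])
  obtain ⟨l, hl1, hl2, _, hl4, hl5⟩ := h03 V H X M Z p q B δ h ε η θ (x :: m ++ [x])
    (m ++ [!x]) ((!x) :: m) o hA hC hM hZ hMZ hlen hw1 (by simp [hm]) (by simp [hm])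
    (by
      intro a ha
      have e1 : (m ++ [!x]) ++ (x :: m ++ [x]) = m ++ (!x) :: x :: (m ++ [x]) := by simp
      rw [e1, wt_win m [x] (!x) x a (p + q + 2) (by omega) (by omega)]
      exact hw2)
    (by
      intro a ha1 ha2
      obtain ⟨a', rfl⟩ : ∃ a', a = a' + 1 := ⟨a - 1, by omega⟩
      have e1 : (x :: m ++ [x]) ++ ((!x) :: m) = x :: (m ++ x :: (!x) :: (m ++ [])) := by simp
      rw [e1, List.drop_succ_cons, wt_win m [] x (!x) a' (p + q + 2) (by omega) (by omega)]
      have e2 : wt [x, !x] = wt [!x, x] := by cases x <;> rfl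
      rw [e2]
      exact hw2)
    hoM hoi holet (by rw [ho0]; simp) (by rw [hol]; simp)
  exact ⟨l, hl1, hl2, hl4, hl5⟩

theorem g_mov (h03 : StmtG03) (h04 : StmtG04) : StmtG05 := by
  intro V _ _ H X M Z p q B δ h ε η θ m hA hC hM hZ hMZ hm
  constructor
  · intro hc hw
    obtain ⟨m₁, hm1, m₂, hm2, hne⟩ := two_mem hc
    rw [Finset.mem_sdiff] at hm1 hm2
    have hwt : m.count true = p + 1 := hw
    have h1 := g_mov_aux h03 h04 V H X M Z p q B δ h ε η θ m false hA hC hM hZ hMZ hm m₁ m₂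
      hm1.1 hm2.1 hne (by simp [hm1.2]) (by simp [hm2.2])
      (by
        unfold wt
        simp [hwt])
      (by
        right
        unfold wt
        rw [hwt]
        rfl)
    exact h1
  · intro hc hw
    obtain ⟨m₁, hm1, m₂, hm2, hne⟩ := two_mem hc
    rw [Finset.mem_inter] at hm1 hm2
    have hwt : m.count true + 1 = p := hw
    have h1 := g_mov_aux h03 h04 V H X M Z p q B δ h ε η θ m true hA hC hM hZ hMZ hm m₁ m₂
      hm1.1 hm2.1 hne (by simp [hm1.2]) (by simp [hm2.2])
      (by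
        unfold wt
        simp
        omega)
      (by
        left
        unfold wt
        exact hwt)
    exact h1

end Pool.Agent.KK.E.H52
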