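import Pool.Agent.KK.StmtsG

set_option autoImplicit false

namespace Pool.Agent.KK.E.H52

theorem card_filter_getD (c : List Bool) :
    ∀ n : ℕ, c.length = n → (Finset.univ.filter fun i : Fin n => c.getD i false = true).card =
      c.count true := by
  induction c with
  | nil =>
    intro n hn
    subst hn
    rfl
  | cons x c ih =>
    intro n hn
    cases n with
    | zero => simp at hn
    | succ n =>
      have h1 : c.length = n := by simpa using hn
      rw [Fin.card_filter_univ_succ]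
      have h2 : (Finset.univ.filter fun i : Fin n =>
          (x :: c).getD ((i.succ : Fin (n + 1)) : ℕ) false = true).card = c.count true := by
        rw [← ih n h1]
        refine congrArg Finset.card ?_
        ext i
        simp
      rw [h2]
      cases x <;> simp

theorem exists_phi {V : Type} [DecidableEq V] (X M : Finset V) (p q : ℕ)
    (c : List Bool) (hc : c.length = p + q + 2) (hw : c.count true = p + 1)
    (h1 : (M ∩ X).card ≤ p + 1) (h2 : (M \ X).card ≤ q + 1) :
    ∃ φ : V → Fin (p + q + 2), (∀ v ∈ M, ∀ w ∈ M, φ v = φ w → v = w) ∧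
      ∀ v ∈ M, (v ∈ X ↔ c.getD (φ v) false = true) := by
  have ht := card_filter_getD c _ hc
  rw [hw] at ht
  have hf : (Finset.univ.filter fun i : Fin (p + q + 2) => ¬ c.getD i false = true).card = q + 1 := by
    have h3 := Finset.card_filter_add_card_filter_not (s := (Finset.univ : Finset (Fin (p + q + 2))))
      (fun i => c.getD i false = true)
    rw [ht, Finset.card_univ, Fintype.card_fin] at h3
    omega
  have c1 : Fintype.card (M ∩ X : Finset V) ≤ Fintype.card
      (Finset.univ.filter fun i : Fin (p + q + 2) => c.getD i false = true : Finset _) := by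
    rw [Fintype.card_coe, Fintype.card_coe, ht]
    exact h1
  have c2 : Fintype.card (M \ X : Finset V) ≤ Fintype.card
      (Finset.univ.filter fun i : Fin (p + q + 2) => ¬ c.getD i false = true : Finset _) := by
    rw [Fintype.card_coe, Fintype.card_coe, hf]
    exact h2
  obtain ⟨e1⟩ := Function.Embedding.nonempty_of_card_le c1
  obtain ⟨e2⟩ := Function.Embedding.nonempty_of_card_le c2
  obtain ⟨φ, hφ⟩ : ∃ φ : V → Fin (p + q + 2), φ = fun v =>
      if h : v ∈ M ∩ X then (e1 ⟨v, h⟩ : Fin (p + q + 2))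
      else if h' : v ∈ M \ X then (e2 ⟨v, h'⟩ : Fin (p + q + 2)) else 0 := ⟨_, rfl⟩
  have hφ1 : ∀ v (h : v ∈ M ∩ X), φ v = (e1 ⟨v, h⟩ : Fin (p + q + 2)) := by
    intro v h
    rw [hφ]
    exact dif_pos h
  have hφ2 : ∀ v (h : v ∈ M \ X), φ v = (e2 ⟨v, h⟩ : Fin (p + q + 2)) := by
    intro v h
    rw [hφ]
    have h' : v ∉ M ∩ X := by
      intro h'
      rw [Finset.mem_inter] at h'
      rw [Finset.mem_sdiff] at h
      exact h.2 h'.2
    show (if h : v ∈ M ∩ X then (e1 ⟨v, h⟩ : Fin (p + q + 2))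
      else if h' : v ∈ M \ X then (e2 ⟨v, h'⟩ : Fin (p + q + 2)) else 0) = _
    rw [dif_neg h', dif_pos h]
  have hlet : ∀ v ∈ M, (v ∈ X ↔ c.getD (φ v) false = true) := by
    intro v hv
    by_cases hX : v ∈ X
    · have h := Finset.mem_inter.2 ⟨hv, hX⟩
      rw [hφ1 v h]
      have h3 := (e1 ⟨v, h⟩).2
      rw [Finset.mem_filter] at h3
      exact ⟨fun _ => h3.2, fun _ => hX⟩
    · have h := Finset.mem_sdiff.2 ⟨hv, hX⟩
      rw [hφ2 v h]
      have h3 := (e2 ⟨v, h⟩).2
      rw [Finset.mem_filter] at h3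
      exact ⟨fun h4 => absurd h4 hX, fun h4 => absurd h4 h3.2⟩
  refine ⟨φ, ?_, hlet⟩
  intro v hv w hw hvw
  have h5 : v ∈ X ↔ w ∈ X := by rw [hlet v hv, hlet w hw, hvw]
  by_cases hX : v ∈ X
  · have hv' := Finset.mem_inter.2 ⟨hv, hX⟩
    have hw' := Finset.mem_inter.2 ⟨hw, h5.1 hX⟩
    rw [hφ1 v hv', hφ1 w hw'] at hvw
    exact congrArg Subtype.val (e1.injective (Subtype.ext hvw))
  · have hv' := Finset.mem_sdiff.2 ⟨hv, hX⟩
    have hw' := Finset.mem_sdiff.2 ⟨hw, fun h => hX (h5.2 h)⟩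
    rw [hφ2 v hv', hφ2 w hw'] at hvw
    exact congrArg Subtype.val (e2.injective (Subtype.ext hvw))

theorem g_pla : StmtG04 := by
  classical
  intro V _ _ X M p q c m₁ m₂ hc hw h1 h2 hm1 hm2 hne hx1 hx2
  obtain ⟨φ, hinj, hlet⟩ := exists_phi X M p q c hc hw h1 h2
  -- first exchange
  obtain ⟨φ1, hφ1⟩ : ∃ φ1 : V → Fin (p + q + 2), φ1 = fun v => Equiv.swap (φ m₁) 0 (φ v) := ⟨_, rfl⟩
  have hinj1 : ∀ v ∈ M, ∀ w ∈ M, φ1 v = φ1 w → v = w := by
    intro v hv w hw' h
    rw [hφ1] at h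
    exact hinj v hv w hw' ((Equiv.swap (φ m₁) 0).injective h)
  have hsw : ∀ (i j x : Fin (p + q + 2)), (c.getD i false = true ↔ c.getD j false = true) →
      (c.getD (Equiv.swap i j x) false = true ↔ c.getD x false = true) := by
    intro i j x hij
    by_cases hxi : x = i
    · subst hxi
      rw [Equiv.swap_apply_left]
      exact hij.symm
    · by_cases hxj : x = j
      · subst hxj
        rw [Equiv.swap_apply_right]
        exact hij
      · rw [Equiv.swap_apply_of_ne_of_ne hxi hxj]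
  have hlet1 : ∀ v ∈ M, (v ∈ X ↔ c.getD (φ1 v) false = true) := by
    intro v hv
    rw [hφ1]
    show v ∈ X ↔ c.getD (Equiv.swap (φ m₁) 0 (φ v)) false = true
    rw [hsw, hlet v hv]
    rw [← hlet m₁ hm1]
    exact hx1
  have hφ1m : φ1 m₁ = 0 := by
    rw [hφ1]
    exact Equiv.swap_apply_left _ _
  -- second exchange
  obtain ⟨φ2, hφ2⟩ : ∃ φ2 : V → Fin (p + q + 2),
      φ2 = fun v => Equiv.swap (φ1 m₂) (Fin.last (p + q + 1)) (φ1 v) := ⟨_, rfl⟩
  have hinj2 : ∀ v ∈ M, ∀ w ∈ M, φ2 v = φ2 w → v = w := by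
    intro v hv w hw' h
    rw [hφ2] at h
    exact hinj1 v hv w hw' ((Equiv.swap (φ1 m₂) (Fin.last (p + q + 1))).injective h)
  have hlet2 : ∀ v ∈ M, (v ∈ X ↔ c.getD (φ2 v) false = true) := by
    intro v hv
    rw [hφ2]
    show v ∈ X ↔ c.getD (Equiv.swap (φ1 m₂) (Fin.last (p + q + 1)) (φ1 v)) false = true
    rw [hsw, hlet1 v hv]
    rw [← hlet1 m₂ hm2]
    exact hx2
  have hφ2m : φ2 m₂ = Fin.last (p + q + 1) := by
    rw [hφ2]
    exact Equiv.swap_apply_left _ _
  have hφ2m' : φ2 m₁ = 0 := by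
    rw [hφ2]
    show Equiv.swap (φ1 m₂) (Fin.last (p + q + 1)) (φ1 m₁) = 0
    rw [hφ1m]
    apply Equiv.swap_apply_of_ne_of_ne
    · intro h
      rw [← hφ1m] at h
      exact hne (hinj1 m₁ hm1 m₂ hm2 h)
    · intro h
      have h3 := congrArg Fin.val h
      simp at h3
  obtain ⟨o, ho⟩ : ∃ o : Fin (p + q + 2) → Option V, o = fun i =>
      if h : ∃ v ∈ M, φ2 v = i then some h.choose else none := ⟨_, rfl⟩
  have ho1 : ∀ v ∈ M, o (φ2 v) = some v := by
    intro v hv
    have h : ∃ w ∈ M, φ2 w = φ2 v := ⟨v, hv, rfl⟩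
    have h3 : o (φ2 v) = some h.choose := by
      rw [ho]
      exact dif_pos h
    rw [h3]
    exact congrArg some (hinj2 _ h.choose_spec.1 v hv h.choose_spec.2)
  have ho2 : ∀ i v, o i = some v → v ∈ M ∧ φ2 v = i := by
    intro i v h
    by_cases hex : ∃ v ∈ M, φ2 v = i
    · have h3 : o i = some hex.choose := by
        rw [ho]
        exact dif_pos hex
      rw [h3, Option.some_inj] at h
      rw [← h]
      exact hex.choose_spec
    · have h3 : o i = none := by
        rw [ho]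
        exact dif_neg hex
      rw [h3] at h
      cases h
  refine ⟨o, ?_, ?_, ?_, ?_, ?_⟩
  · rw [← hφ2m']
    exact ho1 m₁ hm1
  · rw [← hφ2m]
    exact ho1 m₂ hm2
  · intro v
    constructor
    · intro hv
      exact ⟨φ2 v, ho1 v hv⟩
    · rintro ⟨i, hi⟩
      exact (ho2 i v hi).1
  · intro i i' v hi hi'
    rw [← (ho2 i v hi).2, ← (ho2 i' v hi').2]
  · intro i v hi
    obtain ⟨h3, h4⟩ := ho2 i v hi
    rw [hlet2 v h3, h4]

end Pool.Agent.KK.E.H52
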