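import Pool.Agent.KK.StmtsW

/-! MP_747bc0_co, squad KK, block BETA: lists of slots (copied from `Helper3_KK/CYC.lean` and
`Helper3_KK/REA.lean`). -/

set_option autoImplicit false

namespace Pool.Agent.KK.H52L

theorem infix_iff_drop {α : Type} (M s : List α) (k : ℕ) :
    (s <:+: M ∧ s.length = k) ↔ ∃ i, i + k ≤ M.length ∧ s = (M.drop i).take k := by
  constructor
  · rintro ⟨⟨t, u, h⟩, hk⟩
    refine ⟨t.length, ?_, ?_⟩
    · rw [← h, List.length_append, List.length_append, hk]
      omega
    · rw [← h, List.append_assoc, List.drop_left, ← hk, List.take_left]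
  · rintro ⟨i, hi, rfl⟩
    refine ⟨(List.take_prefix _ _).isInfix.trans (List.drop_suffix _ _).isInfix, ?_⟩
    rw [List.length_take, List.length_drop]
    omega

section lists

variable {α : Type}

/-- a window of `A ++ B` is a window of `A` or of the last entries of `A` and `B` -/
theorem infix_split {A' W B s : List α} {k : ℕ} (hW : W.length + 1 = k)
    (hs : s.length = k) (h : s <:+: (A' ++ W) ++ B) : s <:+: A' ++ W ∨ s <:+: W ++ B := by
  obtain ⟨i, hi, rfl⟩ := (infix_iff_drop _ _ _).1 ⟨h, hs⟩
  rw [List.length_append, List.length_append] at hi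
  by_cases h1 : i + k ≤ (A' ++ W).length
  · left
    have h2 : (((A' ++ W) ++ B).drop i).take k = ((A' ++ W).drop i).take k := by
      rw [List.drop_append_of_le_length (by omega), List.take_append_of_le_length]
      rw [List.length_drop]
      omega
    rw [h2]
    exact (List.take_prefix _ _).isInfix.trans (List.drop_suffix _ _).isInfix
  · right
    rw [List.length_append] at h1
    have h2 : ((A' ++ W) ++ B).drop i = (W ++ B).drop (i - A'.length) := by
      rw [List.append_assoc, List.drop_append, List.drop_eq_nil_of_le (by omega),
        List.nil_append]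
    rw [h2]
    exact (List.take_prefix _ _).isInfix.trans (List.drop_suffix _ _).isInfix

end lists

variable {V : Type} [Fintype V] [DecidableEq V]

omit [Fintype V] [DecidableEq V] in
theorem fr_fw (u : List Bool) : fr (fw u : List (Slot V)) = u.length := by
  unfold fr fw
  rw [List.countP_map]
  exact List.countP_eq_length.2 fun _ _ => rfl

omit [Fintype V] [DecidableEq V] in
theorem fw_length (u : List Bool) : (fw u : List (Slot V)).length = u.length := by
  unfold fw
  rw [List.length_map]

omit [Fintype V] [DecidableEq V] in
theorem fw_append (u v : List Bool) : (fw (u ++ v) : List (Slot V)) = fw u ++ fw v := by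
  unfold fw
  rw [List.map_append]

omit [Fintype V] [DecidableEq V] in
theorem fw_inj {u v : List Bool} (h : (fw u : List (Slot V)) = fw v) : u = v :=
  List.map_injective_iff.2 Sum.inr_injective h

omit [Fintype V] in
theorem cX_append (X : Finset V) (s t : List (Slot V)) : cX X (s ++ t) = cX X s + cX X t := by
  unfold cX
  rw [List.countP_append]

omit [Fintype V] in
theorem cX_fw (X : Finset V) (u : List Bool) : cX X (fw u) = wt u := by
  induction u with
  | nil => rfl
  | cons b u ih =>
    have h1 : (fw (b :: u) : List (Slot V)) = Sum.inr b :: fw u := rfl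
    rw [h1]
    unfold cX wt at *
    rw [List.countP_cons, List.count_cons, ih]
    cases b <;> simp

omit [Fintype V] in
theorem cX_vx (X : Finset V) (l : List V) :
    cX X (vx l) = wt (l.map fun v => decide (v ∈ X)) := by
  induction l with
  | nil => rfl
  | cons b u ih =>
    have h1 : (vx (b :: u) : List (Slot V)) = Sum.inl b :: vx u := rfl
    rw [h1]
    unfold cX wt at *
    rw [List.map_cons, List.countP_cons, List.count_cons, ih]
    by_cases hb : b ∈ X <;> simp [hb]

omit [Fintype V] [DecidableEq V] in
theorem fx_append (s t : List (Slot V)) : fx (s ++ t) = fx s ++ fx t := by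
  unfold fx
  rw [List.filterMap_append]

omit [Fintype V] [DecidableEq V] in
theorem fx_fw (u : List Bool) : fx (fw u : List (Slot V)) = [] := by
  induction u with
  | nil => rfl
  | cons b u ih =>
    have h1 : (fw (b :: u) : List (Slot V)) = Sum.inr b :: fw u := rfl
    rw [h1]
    unfold fx at *
    rw [List.filterMap_cons]
    exact ih

omit [Fintype V] [DecidableEq V] in
theorem fx_vx (l : List V) : fx (vx l : List (Slot V)) = l := by
  induction l with
  | nil => rfl
  | cons b u ih =>
    have h1 : (vx (b :: u) : List (Slot V)) = Sum.inl b :: vx u := rfl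
    rw [h1]
    unfold fx at *
    rw [List.filterMap_cons]
    change b :: _ = _
    rw [ih]

omit [Fintype V] [DecidableEq V] in
/-- a window of length `k` between two free words of length `k - 1` with something fixed in the
middle is not free -/
theorem no_free {k : ℕ} {v uR s : List Bool} {l : List V} (hv : v.length + 1 = k)
    (hR : uR.length + 1 = k) (hl : 1 ≤ l.length) (hs : s.length = k)
    (h : (fw s : List (Slot V)) <:+: fw v ++ (vx l ++ fw uR)) : False := by
  obtain ⟨i, hi, he⟩ := (infix_iff_drop _ _ _).1 ⟨h, (fw_length s).trans hs⟩
  have hvx : (vx l : List (Slot V)).length = l.length := by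
    unfold vx
    rw [List.length_map]
  rw [List.length_append, List.length_append, fw_length, fw_length, hvx] at hi
  obtain ⟨j, hj⟩ : ∃ j, j = max i v.length := ⟨_, rfl⟩
  have hj1 : v.length ≤ j := by omega
  have hj2 : j < v.length + l.length := by omega
  have hj3 : i ≤ j := by omega
  have hj4 : j - i < k := by omega
  have e1 : (fw s : List (Slot V))[j - i]? = (fw v ++ (vx l ++ fw uR))[j]? := by
    rw [he, List.getElem?_take_of_lt hj4, List.getElem?_drop]
    congr 1
    omega
  have e2 : (fw v ++ (vx l ++ fw uR) : List (Slot V))[j]? = some (Sum.inl l[j - v.length]) := by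
    rw [List.getElem?_append_right (by rw [fw_length]; exact hj1), fw_length,
      List.getElem?_append_left (by rw [hvx]; omega)]
    unfold vx
    rw [List.getElem?_map, List.getElem?_eq_getElem (by omega)]
    rfl
  have e3 : (fw s : List (Slot V))[j - i]? = some (Sum.inr s[j - i]) := by
    unfold fw
    rw [List.getElem?_map, List.getElem?_eq_getElem (by omega)]
    rfl
  rw [e3, e2] at e1
  exact absurd (Option.some.inj e1) (by simp)

end Pool.Agent.KK.H52L
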