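import Pool.Agent.KK.StmtsV
import Pool.Agent.Helper52_KK.LST

/-! MP_747bc0_co, squad KK, block BETA part 2, row REL (adapted from `Helper3_KK/REA.lean`). -/

set_option autoImplicit false

namespace Pool.Agent.KK.H52

open Pool.Agent.KK.H52L

theorem rel_aux {V : Type} [Fintype V] [DecidableEq V] (H : Finset (Finset V)) (X : Finset V)
    (k p : ℕ) (ε : ℝ) (K : ℕ) (u v : List Bool) (N a q : ℕ) (hk : 1 ≤ k) (hF : FW H X k p ε)
    (hP : Pl V H X k p ε K u v N a q) (Z : Finset V) :
    Z.card + 2 * k * q ≤ K → ∃ L : List (Slot V), L.length = N ∧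
    cX X L = a ∧ (fx L).length ≤ 2 * k * q ∧ (∀ x ∈ fx L, x ∉ Z) ∧ Lst H X k p ε u v L := by
  induction hP with
  | nil hu =>
    intro _
    have hno : ∀ s : List (Slot V), s <:+: fw u ++ [] → s.length = k → False := by
      intro s hs hsk
      have h1 := hs.length_le
      rw [List.append_nil, fw_length] at h1
      omega
    refine ⟨[], rfl, rfl, Nat.zero_le _, ?_, hu, hu, List.nodup_nil, ?_, ?_, ?_⟩
    · intro x hx
      exact absurd hx (by simp [fx])
    · rw [List.append_nil]
    · intro s hs hsk
      exact (hno s hs hsk).elim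
    · intro s hs hsk
      exact (hno _ hs ((fw_length s).trans hsk)).elim
  | letter v N a q b _ hw ih =>
    intro hK
    obtain ⟨L, hL1, hL2, hL4, hLZ, hu, hv, hL3, hsuf, hok, hpar⟩ := ih hK
    have hfwb : (fw (v ++ [b]) : List (Slot V)) = fw v ++ [Sum.inr b] := fw_append _ _
    have hvb : (v ++ [b]).length = k := by
      rw [List.length_append, hv, List.length_singleton]
      omega
    have hsuf2 : (fw (v ++ [b]) : List (Slot V)) <:+ fw u ++ (L ++ [Sum.inr b]) := by
      obtain ⟨A, hA⟩ := hsuf
      refine ⟨A, ?_⟩
      rw [hfwb, ← List.append_assoc, hA, List.append_assoc]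
    have hsplit : ∀ s : List (Slot V), s <:+: fw u ++ (L ++ [Sum.inr b]) → s.length = k →
        s <:+: fw u ++ L ∨ s = fw (v ++ [b]) := by
      intro s hs hsk
      obtain ⟨A, hA⟩ := hsuf
      rw [← List.append_assoc, ← hA] at hs
      rcases infix_split (k := k) (by rw [fw_length, hv]; exact Nat.sub_add_cancel hk) hsk hs
        with h | h
      · left
        rw [hA] at h
        exact h
      · right
        rw [← hfwb] at h
        exact h.eq_of_length (by rw [hsk, fw_length, hvb])
    have h1 : ([Sum.inr b] : List (Slot V)) = fw [b] := rfl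
    refine ⟨L ++ [Sum.inr b], ?_, ?_, ?_, ?_, hu, ?_, ?_, ?_, ?_, ?_⟩
    · rw [List.length_append, hL1]
      rfl
    · rw [cX_append, hL2, h1, cX_fw]
    · rw [fx_append, h1, fx_fw, List.append_nil]
      exact hL4
    · rw [fx_append, h1, fx_fw, List.append_nil]
      exact hLZ
    · rw [List.length_tail, hvb]
    · rw [fx_append, h1, fx_fw, List.append_nil]
      exact hL3
    · have h1 : (fw (v ++ [b]).tail : List (Slot V)) = (fw (v ++ [b])).tail := by
        unfold fw
        rw [List.map_tail]
      rw [h1]
      exact (List.tail_suffix _).trans hsuf2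
    · intro s hs hsk
      rcases hsplit s hs hsk with h | h
      · exact hok s h hsk
      · rw [h]
        exact hF (v ++ [b]) hvb hw
    · intro s hs hsk
      rcases hsplit _ hs ((fw_length s).trans hsk) with h | h
      · exact hpar s h hsk
      · rw [fw_inj h]
        exact hw
  | gadget v N a q c uR _ hc1 hc2 huR hS ih =>
    intro hK
    have hK1 : 2 * k * (q + 1) = 2 * k * q + 2 * k := by ring
    obtain ⟨L, hL1, hL2, hL4, hLZ, hu, hv, hL3, hsuf, hok, hpar⟩ := ih (by omega)
    obtain ⟨l, hl1, hl2, hl3, hl4⟩ := hS (Z ∪ (fx L).toFinset)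
      ((Finset.card_union_le _ _).trans
        ((Nat.add_le_add_left (List.toFinset_card_le _) _).trans (by omega)))
    have hlc : l.length = c.length := by
      rw [← hl3, List.length_map]
    have hvx : (vx l : List (Slot V)).length = l.length := by
      unfold vx
      rw [List.length_map]
    have hsplit : ∀ s : List (Slot V), s <:+: fw u ++ (L ++ (vx l ++ fw uR)) → s.length = k →
        s <:+: fw u ++ L ∨ s <:+: fw v ++ (vx l ++ fw uR) := by
      intro s hs hsk
      obtain ⟨A, hA⟩ := hsuf
      rw [← List.append_assoc, ← hA] at hs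
      rcases infix_split (k := k) (by rw [fw_length, hv]; exact Nat.sub_add_cancel hk) hsk hs
        with h | h
      · left
        rw [hA] at h
        exact h
      · right
        exact h
    refine ⟨L ++ (vx l ++ fw uR), ?_, ?_, ?_, ?_, hu, huR, ?_, ?_, ?_, ?_⟩
    · rw [List.length_append, List.length_append, hL1, fw_length, hvx, huR, hlc]
      omega
    · rw [cX_append, cX_append, hL2, cX_fw, cX_vx, hl3]
      omega
    · rw [fx_append, fx_append, fx_fw, fx_vx, List.append_nil, List.length_append, hlc]
      omega
    · rw [fx_append, fx_append, fx_fw, fx_vx, List.append_nil]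
      intro x hx
      rcases List.mem_append.1 hx with hx | hx
      · exact hLZ x hx
      · intro hxZ
        exact hl2 x hx (Finset.mem_union_left _ hxZ)
    · rw [fx_append, fx_append, fx_fw, fx_vx, List.append_nil]
      refine List.nodup_append.2 ⟨hL3, hl1, ?_⟩
      intro x hx y hy hxy
      subst hxy
      exact hl2 x hy (Finset.mem_union_right _ (List.mem_toFinset.2 hx))
    · exact ((List.suffix_append _ _).trans (List.suffix_append _ _)).trans
        (List.suffix_append _ _)
    · intro s hs hsk
      rcases hsplit s hs hsk with h | h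
      · exact hok s h hsk
      · refine hl4 s ?_ hsk
        rw [List.append_assoc]
        exact h
    · intro s hs hsk
      rcases hsplit _ hs ((fw_length s).trans hsk) with h | h
      · exact hpar s h hsk
      · exact (no_free (by rw [hv]; exact Nat.sub_add_cancel hk)
          (by rw [huR]; exact Nat.sub_add_cancel hk) (by rw [hlc]; exact hc1) hsk h).elim

theorem rel : RelStmt := by
  intro V _ _ H X k p ε K u v N a q K' hk hF hP hK Z _ hZ
  have h1 : Z.card + 2 * k * q ≤ K := by
    have h2 : (Z.card : ℝ) + 2 * k * q ≤ K := by linarith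
    exact_mod_cast h2
  obtain ⟨L, h2, h3, h4, h5, h6⟩ := rel_aux H X k p ε K u v N a q hk hF hP Z h1
  exact ⟨L, h2, h3, h4, h5, by simp, h6⟩

end Pool.Agent.KK.H52
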