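import Pool.Agent.KK.StmtsV
import Pool.Agent.Helper42_KK.W1

/-! MP_747bc0_co, squad KK, block BETA part 2, row SRT. -/

set_option autoImplicit false

namespace Pool.Agent.KK.H52

open Pool.Agent.KK.H42

section

variable {V : Type} [Fintype V] [DecidableEq V]

theorem supT_rev (H : Finset (Finset V)) (X : Finset V) (k : ℕ)
    (ε K : ℝ) (z : V) (uL c uR : List Bool) (h : SupT H X k ε K z uL c uR) :
    SupT H X k ε K z uR.reverse c.reverse uL.reverse := by
  intro Z hZ hz
  obtain ⟨l, h1, h0, h2, h3, h4⟩ := h Z hZ hz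
  refine ⟨l.reverse, List.nodup_reverse.2 h1, List.mem_reverse.2 h0,
    fun v hv => h2 v (List.mem_reverse.1 hv), ?_, ?_⟩
  · rw [List.map_reverse, h3]
  · have h5 := okl_reverse H X k ε _ h4
    rw [List.reverse_append, List.reverse_append, ← fw_reverse, ← fw_reverse, ← vx_reverse,
      ← List.append_assoc] at h5
    exact h5

theorem supT_cs (H : Finset (Finset V)) (X : Finset V) (k : ℕ)
    (ε K : ℝ) (z : V) (uL c uR : List Bool) (h : SupT H X k ε K z uL c uR) :
    SupT H Xᶜ k ε K z (uL.map not) (c.map not) (uR.map not) := by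
  intro Z hZ hz
  obtain ⟨l, h1, h0, h2, h3, h4⟩ := h Z hZ hz
  refine ⟨l, h1, h0, h2, ?_, ?_⟩
  · rw [← h3, List.map_map]
    refine List.map_congr_left fun v _ => ?_
    simp only [Function.comp, Finset.mem_compl, decide_not]
  · have h5 := okl_cs H X k ε _ h4
    rw [List.map_append, List.map_append, fw_cs, fw_cs, vx_cs] at h5
    exact h5

theorem tok_cs (H : Finset (Finset V)) (X : Finset V) (k j : ℕ)
    (ε K : ℝ) (z : V) (hj : 1 ≤ j) (hjk : j + 1 ≤ k) (h : Tok H X k ε K j z) :
    Tok H Xᶜ k ε K (k - j) z := by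
  intro m₁ m₂ hl hw
  have e1 := wt_not m₁
  have e2 := wt_not m₂
  have hr : ∀ m : List Bool, wt m.reverse = wt m := by
    intro m
    unfold wt
    rw [List.count_reverse]
  have h1 := h (m₂.map not).reverse (m₁.map not).reverse (by
    rw [List.length_reverse, List.length_reverse, List.length_map, List.length_map]
    omega) (by
    rw [hr, hr]
    omega)
  have h2 := supT_rev H Xᶜ k ε K z _ _ _ (supT_cs H X k ε K z _ _ _ h1)
  have hd : decide (z ∈ Xᶜ) = !(decide (z ∈ X)) := by
    by_cases hz : z ∈ X <;> simp [hz]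
  have hnn : (not ∘ not) = id := by
    funext b
    cases b <;> rfl
  have f1 : (((true :: (m₂.map not).reverse ++ true :: (m₁.map not).reverse).dropLast).map
      not).reverse = (m₁ ++ false :: m₂ ++ [false]).tail := by
    rw [List.map_dropLast, ← List.tail_reverse]
    congr 1
    simp [List.map_append, List.map_reverse, hnn]
  have f2 : (((((m₂.map not).reverse ++ false :: (m₁.map not).reverse ++ [false]).tail).map
      not).reverse) = (true :: m₁ ++ true :: m₂).dropLast := by
    rw [List.map_tail, ← List.dropLast_reverse]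
    congr 1
    simp [List.map_append, List.map_reverse, hnn]
  have f3 : (((m₂.map not).reverse ++ false :: (m₁.map not).reverse ++ decide (z ∈ X) ::
      ((m₂.map not).reverse ++ true :: (m₁.map not).reverse)).map not).reverse =
      m₁ ++ false :: m₂ ++ decide (z ∈ Xᶜ) :: (m₁ ++ true :: m₂) := by
    rw [hd]
    simp [List.map_append, List.map_reverse, hnn]
  rw [f1, f2, f3] at h2
  exact h2

end

theorem srt : SrtStmt := by
  refine ⟨?_, ?_, ?_⟩
  · intro V _ _ H X k ε K z uL c uR h
    exact supT_rev H X k ε K z uL c uR h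
  · intro V _ _ H X k ε K z uL c uR
    constructor
    · exact supT_cs H X k ε K z uL c uR
    · intro h
      have h2 := supT_cs H Xᶜ k ε K z _ _ _ h
      rwa [compl_compl, map_not_not, map_not_not, map_not_not] at h2
  · intro V _ _ H X k j ε K z hj hjk h
    exact tok_cs H X k j ε K z hj hjk h

end Pool.Agent.KK.H52
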